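import Mathlib

/-! Lenses, tame sets, cores and sections for the counterexample. -/

namespace Pool.Agent.MP_d32a63_an.H95

open Set Polynomial

/-- The open thin rhombus with tips `p` and `v`. -/
def lens (p v : ℂ) (t : ℝ) : Set ℂ :=
  {z | |((z - p) / (v - p)).im| < t * ((z - p) / (v - p)).re ∧
    |((z - p) / (v - p)).im| < t * (1 - ((z - p) / (v - p)).re)}

/-- The closed thin rhombus with tips `p` and `v`. -/
def clens (p v : ℂ) (t : ℝ) : Set ℂ :=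
  {z | |((z - p) / (v - p)).im| ≤ t * ((z - p) / (v - p)).re ∧
    |((z - p) / (v - p)).im| ≤ t * (1 - ((z - p) / (v - p)).re)}

/-- A segment whose interior misses `C` has a closed lens meeting `C` at most in the tips. -/
def Tame (C : Set ℂ) : Prop :=
  ∀ p v : ℂ, p ≠ v → Disjoint (openSegment ℝ p v) C → ∃ t > 0, clens p v t ∩ C ⊆ {p, v}

/-- The outside of the unit diamond. -/
def W0 : Set ℂ := {z | 1 < |z.re| + |z.im|}

/-- Near `y` the set `W` is an open half plane bounded by a non-vertical line through `y`. -/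
def Flat (W : Set ℂ) (y : ℂ) : Prop :=
  ∃ r > 0, ∃ c s : ℝ, (s = 1 ∨ s = -1) ∧
    ∀ z ∈ Metric.ball y r, z ∈ W ↔ 0 < s * ((z - y).im - c * (z - y).re)

/-- The `j`-th derivative of the polynomial `T` at `z`. -/
noncomputable def jet (T : ℂ[X]) (j : ℕ) (z : ℂ) : ℂ := (derivative^[j] T).eval z

/-- An open set with a field of jets that is holomorphic on it. -/
structure Core (n : ℕ) where
  W : Set ℂ
  F : ℕ → ℂ → ℂ
  X : Set ℂ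
  isOpen : IsOpen W
  base : W0 ⊆ W
  cont : ∀ j, Continuous (F j)
  der : ∀ j < n, ∀ z ∈ W, HasDerivAt (F j) (F (j + 1) z) z
  tame : Tame (closure W)
  conn : IsPreconnected (closure W)ᶜ
  meetP : ((closure W)ᶜ ∩ Metric.ball (3 / 5 : ℂ) (1 / 10)).Nonempty
  meetM : ((closure W)ᶜ ∩ Metric.ball (-3 / 5 : ℂ) (1 / 10)).Nonempty
  fin : X.Finite
  flat : ∀ y ∈ closure W, y ∉ W → y ∉ X → Flat W y

/-- A section with jets bounded by one. -/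
structure Sec (n : ℕ) (W : Set ℂ) (G : ℕ → ℂ → ℂ) : Prop where
  cont : ∀ j ≤ n, ContinuousOn (G j) (closure W)
  der : ∀ j < n, ∀ z ∈ W, HasDerivAt (G j) (G (j + 1) z) z
  bdd : ∀ j ≤ n, ∀ z ∈ closure W, ‖z‖ ≤ 3 → ‖G j z‖ ≤ 1

/-- The Taylor polynomial of degree `n - 1` of the jets `G` at `p`, evaluated at `z`. -/
noncomputable def tay (n : ℕ) (G : ℕ → ℂ → ℂ) (p z : ℂ) : ℂ :=
  ∑ j ∈ Finset.range n, G j p * (z - p) ^ j / (j.factorial : ℂ)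

/-- Realisation of a finite forest of edges `p e → v e` (labels `Tp e`, `Tv e` at the two ends)
and of new gaps `[a g, b g]` (label `R g`). -/
def RealStmt (n : ℕ) (C : ℝ) : Prop :=
  ∀ (s : Core n) (κ δ : ℝ), 0 < κ → 0 < δ →
  ∀ (ι γ : Type) (E : Finset ι) (Γ : Finset γ) (p v : ι → ℂ) (Tp Tv : ι → ℂ[X])
    (a b : γ → ℂ) (R : γ → ℂ[X]) (J : ℕ → ℂ → ℂ) (φ : ℂ → ℝ),
    (∀ e ∈ E, φ (p e) < φ (v e)) →
    (∀ e ∈ E, ∀ e' ∈ E, v e = v e' → e = e') →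
    (∀ e ∈ E, segment ℝ (p e) (v e) ∩ closure s.W ⊆ {p e}) →
    (∀ e ∈ E, ∀ e' ∈ E, e ≠ e' →
      Disjoint (openSegment ℝ (p e) (v e)) (segment ℝ (p e') (v e'))) →
    (∀ g ∈ Γ, a g ≠ b g ∧ Disjoint (openSegment ℝ (a g) (b g)) (closure s.W)) →
    (∀ g ∈ Γ, ∀ g' ∈ Γ, g ≠ g' →
      Disjoint (openSegment ℝ (a g) (b g)) (segment ℝ (a g') (b g'))) →
    (∀ e ∈ E, ∀ g ∈ Γ, Disjoint (openSegment ℝ (p e) (v e)) (segment ℝ (a g) (b g)) ∧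
      Disjoint (openSegment ℝ (a g) (b g)) (segment ℝ (p e) (v e))) →
    (∀ j ≤ n, ∀ z ∈ closure s.W, J j z = s.F j z) →
    (∀ e ∈ E, ∀ j ≤ n, jet (Tp e) j (p e) = J j (p e) ∧ jet (Tv e) j (v e) = J j (v e)) →
    (∀ g ∈ Γ, ∀ j ≤ n, jet (R g) j (a g) = J j (a g) ∧ jet (R g) j (b g) = J j (b g)) →
    (∀ e ∈ E, ∀ j ≤ n, ∀ z ∈ segment ℝ (p e) (v e),
      ‖jet (Tp e) j z - s.F j z‖ ≤ κ / 2 ∧ ‖jet (Tv e) j z - s.F j z‖ ≤ κ / 2) →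
    (∀ g ∈ Γ, ∀ j ≤ n, ∀ z ∈ segment ℝ (a g) (b g), ‖jet (R g) j z - s.F j z‖ ≤ κ / 2) →
    ∃ s' : Core n, s.W ⊆ s'.W ∧ (∀ j ≤ n, ∀ z ∈ closure s.W, s'.F j z = s.F j z) ∧
      (∀ j ≤ n, ∀ z, ‖s'.F j z - s.F j z‖ ≤ κ) ∧
      (∀ e ∈ E, p e ∈ closure s'.W ∧ v e ∈ closure s'.W) ∧
      (∀ g ∈ Γ, Disjoint (openSegment ℝ (a g) (b g)) (closure s'.W) ∧
        ∀ j ≤ n, ∀ z ∈ segment ℝ (a g) (b g), s'.F j z = jet (R g) j z) ∧
      ∀ G, Sec n s'.W G → ∀ e ∈ E,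
        ‖G 0 (p e) - G 0 (v e)‖ ≤
            ‖p e - v e‖ + C * (‖(Tv e - Tp e).eval ((p e + v e) / 2)‖ + δ) / κ ∧
          (Tp e = Tv e → ‖G 0 (p e) - G 0 (v e)‖ ≤ ‖p e - v e‖ ∧
            ∀ (z : ℂ) (d : ℝ), ‖z - p e‖ ≤ d → ‖z - v e‖ ≤ d →
              ‖tay n G (p e) z - tay n G (v e) z‖ ≤ ‖p e - v e‖ * d ^ (n - 1))

end Pool.Agent.MP_d32a63_an.H95
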