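import Pool.Agent.MP_d32a63_an.H95.Real
import Pool.Agent.MP_d32a63_an.H58.Spec

/-! The rows `R_REAL` and `R_INIT`. -/

namespace Pool.Agent.MP_d32a63_an.H95

theorem rowREAL : H58.R_REAL := fun _ hn => real hn

theorem rowINIT : H58.R_INIT := fun n => init n

end Pool.Agent.MP_d32a63_an.H95
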