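import Pool.Agent.MP_d32a63_an.H58.Spec

/-! The finite level for all orders `n ≥ 2 r`: statements, and the change of the Taylor order. -/

open Set Filter Topology Metric Polynomial
open Complex (I)
open Pool.Agent.MP_d32a63_an.H58

namespace Pool.Agent.MP_d32a63_an.H95

noncomputable section

structure PrepN (n r : ℕ) (Cg c : ℝ) (ω : ℂ) (W : Set ℂ) (F : ℕ → ℂ → ℂ) (Γ : Set Seg)
    (κ τ ε0 K0 : ℝ) (βc : ℝ → ℝ) (d a : ℝ) (D : GD) (O : Set Obj) (To : Obj → ℂ[X])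
    (ν : Obj → ℝ) (ε : ℝ) : Prop where
  hyp : GHyp n W F κ D O To ν
  good : ObjGood W Γ d D.ℓ O
  cc : D.c = c
  ld : D.ℓ ≤ d ^ 2
  beta : D.β ≤ κ * D.ℓ ^ (2 * r)
  eps : ε0 ≤ ε
  cd : ∀ Q, act W D.ℓ Q → CD r D.N (1 / 3000) K0 τ ε D.ℓ ω (cen D.ℓ Q) (F 0 (cen D.ℓ Q)) Q.1
    (EV (2 * r) F τ D.ℓ (V0 Q)) (EV (2 * r) F τ D.ℓ (V1 Q)) (EV (2 * r) F τ D.ℓ (V2 Q))
  lk : ∀ Q, act W D.ℓ Q → LkOK r c D.ℓ (cen D.ℓ Q)
    (tnode D.N (EV (2 * r) F τ D.ℓ (V0 Q)) (EV (2 * r) F τ D.ℓ (V1 Q))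
      (EV (2 * r) F τ D.ℓ (V2 Q)) ε (upol r ω (cen D.ℓ Q))) (D.Lk Q)
  xw : a * D.N + 3 ≤ D.xw
  thr : ∀ o ∈ O, o.thr → D.cost Cg κ ν o + D.ℓ ^ (2 * r) ≤ 2 * o.Λ ∧ 4 * D.ℓ ≤ o.Λ
  prb : ∀ o ∈ O, ¬o.thr → ∀ η : ℝ, 0 < η → d ≤ βc η → D.cost Cg κ ν o ≤ η

def PREPN (n r : ℕ) : Prop :=
  ∀ Cg : ℝ, 0 < Cg → ∃ (c : ℝ) (ω : ℂ), 0 < c ∧ ∀ (s : Core n) (Γ : Set Seg),
    Gaps n s.W s.F Γ → ∀ κ : ℝ, 0 < κ → κ ≤ 1 →
    ∃ (τ ε0 K0 d1 : ℝ) (βc : ℝ → ℝ), 0 < τ ∧ 0 < ε0 ∧ 0 < K0 ∧ 0 < d1 ∧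
      (∀ η : ℝ, 0 < η → 0 < βc η) ∧ ∀ d ∈ Ioc 0 d1, ∃ a : ℝ, 0 < a ∧ ∀ ℓ0 : ℝ, 0 < ℓ0 →
        ∃ D O To ν ε, D.ℓ ≤ ℓ0 ∧ PrepN n r Cg c ω s.W s.F Γ κ τ ε0 K0 βc d a D O To ν ε

/-- The output of the grid, for sections of order `n` and Taylor polynomials with `m` terms. -/
structure GOutN (n m : ℕ) (Cc κ δ : ℝ) (W : Set ℂ) (D : GD) (O : Set Obj) (ν : Obj → ℝ)
    (W' : Set ℂ) (Γ' : Set Seg) (rt : ℤ × ℤ → ℤ × ℤ → ℂ) : Prop where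
  thr : ∀ o ∈ O, o.thr → ∃ g' ∈ Γ', g'.v = o.fin ∧ ‖g'.p - g'.v‖ ≤ D.ℓ ∧
    ∀ G, Sec n W' G → ‖G 0 o.y - G 0 g'.p‖ ≤ o.Λ + D.cost Cc κ ν o + δ
  root : ∀ Q, act W D.ℓ Q → ∀ m, Nd D.N m → rt Q m ∈ closure W' ∧ ‖rt Q m - cen D.ℓ Q‖ ≤ D.ℓ
  lk : ∀ G, Sec n W' G → GapOK Γ' (G 0) → ∀ Q, act W D.ℓ Q → ∀ x x', Nd D.N x → Nd D.N x' →
    Nb x x' → ∀ ζ ∈ D.Lk Q x x',
    ‖(H58.tay m G (rt Q x') - H58.tay m G (rt Q x)).eval ζ‖ ≤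
      Cc / D.c * D.ℓ ^ m + Cc * D.β / κ + δ
  shv : ∀ G, Sec n W' G → ∀ i j x : ℤ, (i + j) % 2 = 0 → act W D.ℓ (i, j) → act W D.ℓ (i, j + 1) →
    Sh D.N x → ∀ z ∈ ball (cen D.ℓ (i, j)) (2 * D.ℓ),
    ‖(H58.tay m G (rt (i, j) (x, 0)) - H58.tay m G (rt (i, j + 1) (x, 0))).eval z‖ ≤ Cc * D.ℓ ^ m
  shh : ∀ G, Sec n W' G → ∀ k j x : ℤ, act W D.ℓ (k - 1, j) → act W D.ℓ (k, j) → Sh D.N x →
    (Free D.ℓ O k j ∨ ∃ o ∈ O, o.k = k ∧ j ∈ o.St ∧ D.Mid x) →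
    ∀ z ∈ ball (cen D.ℓ (k, j)) (2 * D.ℓ),
    ‖(H58.tay m G (rt (k - 1, j) (x, D.N - x)) - H58.tay m G (rt (k, j) (0, x))).eval z‖ ≤
      Cc * D.ℓ ^ m
  st : ∀ G, Sec n W' G → ∀ o ∈ O, ∀ j ∈ o.St, ∀ x, D.Mid x →
    ‖G 0 o.y - G 0 (rt (o.k, j) (0, x))‖ ≤ o.Λ + D.cost Cc κ ν o + δ

def GRIDN (n m : ℕ) (Cc : ℝ) : Prop :=
  ∀ (s : Core n) (κ δ : ℝ), 0 < κ → κ ≤ 1 → 0 < δ → ∀ D O To ν, GHyp n s.W s.F κ D O To ν →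
    ∃ (s' : Core n) (Γ' : Set Seg) (rt : ℤ × ℤ → ℤ × ℤ → ℂ), Ext κ s s' ∧ Gaps n s'.W s'.F Γ' ∧
      GOutN n m Cc κ δ s.W D O ν s'.W Γ' rt

/-- The terms of order at least `m` of a Taylor polynomial. -/
theorem tay_tail (hB : BASIC) {n m : ℕ} (hm : m ≤ n) (G : ℕ → ℂ → ℂ) (p z : ℂ) {M t : ℝ}
    (hM : 0 ≤ M) (hG : ∀ j < n, ‖G j p‖ ≤ M) (hz : ‖z - p‖ ≤ t) (ht : t ≤ 1) :
    ‖(H58.tay n G p).eval z - (H58.tay m G p).eval z‖ ≤ n * M * t ^ m := by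
  have t0 : 0 ≤ t := (norm_nonneg _).trans hz
  rw [hB.ev, hB.ev]
  unfold H95.tay
  rw [← Finset.sum_Ico_eq_sub _ hm]
  refine (norm_sum_le _ _).trans ?_
  have h1 : ∀ j ∈ Finset.Ico m n, ‖G j p * (z - p) ^ j / (j.factorial : ℂ)‖ ≤ M * t ^ m := by
    intro j hj
    obtain ⟨h2, h3⟩ := Finset.mem_Ico.1 hj
    rw [norm_div, norm_mul, norm_pow, Complex.norm_natCast]
    have h4 : (1 : ℝ) ≤ j.factorial := by exact_mod_cast j.factorial_pos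
    refine (div_le_self (by positivity) h4).trans ?_
    refine mul_le_mul (hG j h3) ?_ (by positivity) hM
    exact (pow_le_pow_left₀ (norm_nonneg _) hz j).trans (pow_le_pow_of_le_one t0 ht h2)
  refine (Finset.sum_le_card_nsmul _ _ _ h1).trans ?_
  rw [Nat.card_Ico, nsmul_eq_mul, mul_assoc]
  refine mul_le_mul_of_nonneg_right ?_ (by positivity)
  exact_mod_cast Nat.sub_le n m

theorem cen_up' (ℓ : ℝ) (h : 0 ≤ ℓ) (i j : ℤ) : ‖cen ℓ (i, j + 1) - cen ℓ (i, j)‖ = ℓ := by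
  have e : cen ℓ (i, j + 1) - cen ℓ (i, j) = (ℓ : ℂ) * I := by
    unfold cen; push_cast; ring
  rw [e, norm_mul, Complex.norm_I, Complex.norm_real, Real.norm_eq_abs, abs_of_nonneg h, mul_one]

theorem cen_rt' (ℓ : ℝ) (h : 0 ≤ ℓ) (k j : ℤ) : ‖cen ℓ (k, j) - cen ℓ (k - 1, j)‖ = ℓ := by
  have e : cen ℓ (k, j) - cen ℓ (k - 1, j) = (ℓ : ℂ) := by
    unfold cen; push_cast; ring
  rw [e, Complex.norm_real, Real.norm_eq_abs, abs_of_nonneg h]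

theorem gridN (hB : BASIC) {n m : ℕ} (hm : m ≤ n) {Cg : ℝ} (hCg : 0 < Cg) (h : GRID n Cg) :
    GRIDN n m (Cg + 2 * n * 4 ^ m) := by
  intro s κ δ hκ hκ1 hδ D O To ν hH
  obtain ⟨s', Γ', rt, hE, hΓ', hO⟩ := h s κ δ hκ hκ1 hδ D O To ν hH
  refine ⟨s', Γ', rt, hE, hΓ', ?_⟩
  have l0 := hH.l0
  have l1 := hH.l1
  have hC0 : (0 : ℝ) ≤ 2 * n * 4 ^ m := by positivity
  have hcost : ∀ o ∈ O, D.cost Cg κ ν o ≤ D.cost (Cg + 2 * n * 4 ^ m) κ ν o := by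
    intro o ho
    unfold GD.cost
    have h1 := hH.on o ho
    have h2 := hH.n0
    gcongr
    linarith
  have hpow : D.ℓ ^ n ≤ D.ℓ ^ m := pow_le_pow_of_le_one l0.le (by linarith) hm
  have hcen : ∀ Q, act s.W D.ℓ Q → ‖cen D.ℓ Q‖ ≤ 1 := fun Q hQ =>
    (hB.inn s.W _ s.base fun h => Set.disjoint_left.1 hQ (mem_ball_self (by linarith))
      (subset_closure h)).2
  have key : ∀ G, Sec n s'.W G → ∀ Q, act s.W D.ℓ Q → ∀ x, Nd D.N x → ∀ z,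
      ‖z - cen D.ℓ Q‖ ≤ 3 * D.ℓ →
      ‖(H58.tay n G (rt Q x)).eval z - (H58.tay m G (rt Q x)).eval z‖ ≤ n * 4 ^ m * D.ℓ ^ m := by
    intro G hG Q hQ x hx z hz
    obtain ⟨r1, r2⟩ := hO.root Q hQ x hx
    have h1 := hcen Q hQ
    have h2 := norm_add_le (rt Q x - cen D.ℓ Q) (cen D.ℓ Q)
    rw [sub_add_cancel] at h2
    have h3 := norm_sub_le (z - cen D.ℓ Q) (rt Q x - cen D.ℓ Q)
    rw [sub_sub_sub_cancel_right] at h3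
    have := tay_tail hB hm G (rt Q x) z (M := 1) (t := 4 * D.ℓ) zero_le_one
      (fun j hj => hG.bdd j hj.le _ r1 (by linarith)) (by linarith) (by linarith)
    rw [mul_one, mul_pow, ← mul_assoc] at this
    exact this
  have comb : ∀ (G : ℕ → ℂ → ℂ) (p q z : ℂ) (A B : ℝ),
      ‖(H58.tay n G p - H58.tay n G q).eval z‖ ≤ A →
      ‖(H58.tay n G p).eval z - (H58.tay m G p).eval z‖ ≤ B →
      ‖(H58.tay n G q).eval z - (H58.tay m G q).eval z‖ ≤ B →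
      ‖(H58.tay m G p - H58.tay m G q).eval z‖ ≤ A + 2 * B := by
    intro G p q z A B h1 h2 h3
    rw [eval_sub] at h1 ⊢
    have e : (H58.tay m G p).eval z - (H58.tay m G q).eval z =
        ((H58.tay n G p).eval z - (H58.tay n G q).eval z) -
          ((H58.tay n G p).eval z - (H58.tay m G p).eval z) +
          ((H58.tay n G q).eval z - (H58.tay m G q).eval z) := by ring
    rw [e]
    refine (norm_add_le _ _).trans ?_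
    have := norm_sub_le ((H58.tay n G p).eval z - (H58.tay n G q).eval z)
      ((H58.tay n G p).eval z - (H58.tay m G p).eval z)
    linarith
  refine ⟨fun o ho hth => ?_, hO.root, fun G hG hOK Q hQ x x' hx hx' hnb ζ hζ => ?_,
    fun G hG i j x hij h1 h2 hx z hz => ?_, fun G hG k j x h1 h2 hx hf z hz => ?_,
    fun G hG o ho j hj x hx => ?_⟩
  · obtain ⟨g', hg', e1, b1, b2⟩ := hO.thr o ho hth
    exact ⟨g', hg', e1, b1, fun G hG => (b2 G hG).trans (by linarith [hcost o ho])⟩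
  · have hζ' : ‖ζ - cen D.ℓ Q‖ ≤ 3 * D.ℓ :=
      (hH.box Q hQ ζ (hH.lk Q hQ x x' hnb ζ hζ).1).trans (by linarith)
    refine (comb G _ _ ζ _ _ (hO.lk G hG hOK Q hQ x x' hx hx' hnb ζ hζ)
      (key G hG Q hQ x' hx' ζ hζ') (key G hG Q hQ x hx ζ hζ')).trans ?_
    have c0 := hH.c0
    have c1 := hH.c1
    have b0 := hH.b0
    have h1 : Cg / D.c * D.ℓ ^ n ≤ Cg / D.c * D.ℓ ^ m := by gcongr
    have h2 : (2 * n * 4 ^ m : ℝ) ≤ 2 * n * 4 ^ m / D.c := by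
      rw [le_div_iff₀ c0]; nlinarith
    have h3 : (2 * n * 4 ^ m : ℝ) * D.ℓ ^ m ≤ 2 * n * 4 ^ m / D.c * D.ℓ ^ m := by gcongr
    have h4 : Cg * D.β / κ ≤ (Cg + 2 * n * 4 ^ m) * D.β / κ := by gcongr; linarith
    rw [add_div, add_mul]
    linarith
  · have hz1 := mem_ball_iff_norm.1 hz
    have hnd : Nd D.N (x, 0) := ⟨hx.1.le, le_rfl, by simp only; linarith [hx.2.1]⟩
    have h3 := norm_sub_le (z - cen D.ℓ (i, j)) (cen D.ℓ (i, j + 1) - cen D.ℓ (i, j))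
    rw [sub_sub_sub_cancel_right, cen_up' _ l0.le] at h3
    refine (comb G _ _ z _ _ (hO.shv G hG i j x hij h1 h2 hx z hz)
      (key G hG _ h1 _ hnd z (by linarith)) (key G hG _ h2 _ hnd z (by linarith))).trans ?_
    have h4 : Cg * D.ℓ ^ n ≤ Cg * D.ℓ ^ m := by gcongr
    rw [add_mul]
    linarith
  · have hz1 := mem_ball_iff_norm.1 hz
    have hnd : Nd D.N (x, D.N - x) := ⟨hx.1.le, by simp only; linarith [hx.2.1], by simp⟩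
    have hnd' : Nd D.N (0, x) := ⟨le_rfl, hx.1.le, by simp only; linarith [hx.2.1]⟩
    have h3 := norm_add_le (z - cen D.ℓ (k, j)) (cen D.ℓ (k, j) - cen D.ℓ (k - 1, j))
    rw [sub_add_sub_cancel, cen_rt' _ l0.le] at h3
    refine (comb G _ _ z _ _ (hO.shh G hG k j x h1 h2 hx hf z hz)
      (key G hG _ h1 _ hnd z (by linarith)) (key G hG _ h2 _ hnd' z (by linarith))).trans ?_
    have h4 : Cg * D.ℓ ^ n ≤ Cg * D.ℓ ^ m := by gcongr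
    rw [add_mul]
    linarith
  · exact (hO.st G hG o ho j hj x hx).trans (by linarith [hcost o ho])

end

end Pool.Agent.MP_d32a63_an.H95
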