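import Pool.Agent.MP_d32a63_an.H95.GenPrepA

/-! Preparation for all orders: the choice of the parameters. -/

open Set Filter Topology Metric Polynomial
open Complex (I)
open Pool.Agent.MP_d32a63_an.H58

namespace Pool.Agent.MP_d32a63_an.H95

noncomputable section

theorem short_gap {Γ : Set Seg} (hf : Γ.Finite) (hne : ∀ g ∈ Γ, g.p ≠ g.v) :
    ∃ L : ℝ, 0 < L ∧ ∀ g ∈ Γ, L ≤ ‖g.p - g.v‖ := by
  induction Γ, hf using Set.Finite.induction_on with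
  | empty => exact ⟨1, one_pos, fun g hg => hg.elim⟩
  | @insert a s _ _ ih =>
    obtain ⟨L, hL, h⟩ := ih fun g hg => hne g (mem_insert_of_mem _ hg)
    have ha : 0 < ‖a.p - a.v‖ := norm_pos_iff.2 (sub_ne_zero.2 (hne a (mem_insert _ _)))
    refine ⟨min L ‖a.p - a.v‖, lt_min hL ha, fun g hg => ?_⟩
    rcases hg with rfl | hg
    · exact min_le_right _ _
    · exact (min_le_left _ _).trans (h g hg)

theorem com_den {Γ : Set Seg} (hf : Γ.Finite) (hr : ∀ g ∈ Γ, ∃ q : ℚ, g.p.re = q) :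
    ∃ D : ℕ, 0 < D ∧ ∀ g ∈ Γ, ∃ k : ℤ, g.p.re * D = k := by
  induction Γ, hf using Set.Finite.induction_on with
  | empty => exact ⟨1, one_pos, fun g hg => hg.elim⟩
  | @insert a s _ _ ih =>
    obtain ⟨D, hD, h⟩ := ih fun g hg => hr g (mem_insert_of_mem _ hg)
    obtain ⟨q, hq⟩ := hr a (mem_insert _ _)
    refine ⟨D * q.den, Nat.mul_pos hD q.den_pos, fun g hg => ?_⟩
    rcases hg with rfl | hg
    · refine ⟨D * q.num, ?_⟩
      have h1 : (q : ℝ) * q.den = q.num := by exact_mod_cast Rat.mul_den_eq_num q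
      rw [hq]; push_cast; rw [← h1]; ring
    · obtain ⟨k, hk⟩ := h g hg
      exact ⟨k * q.den, by push_cast; rw [← hk]; ring⟩

theorem scale {Γ : Set Seg} {D : ℕ} (hD : 0 < D) (h : ∀ g ∈ Γ, ∃ k : ℤ, g.p.re * D = k) {B : ℝ}
    (hB : 0 < B) : ∃ ℓ : ℝ, 0 < ℓ ∧ ℓ ≤ B ∧ (∃ q : ℚ, ℓ = q) ∧
      ∀ g ∈ Γ, ∃ k : ℤ, k % 3 = 0 ∧ g.p.re = (k : ℝ) * ℓ := by
  obtain ⟨m, hm⟩ := exists_nat_gt (1 / B)
  have hm0 : (0 : ℝ) < m := lt_trans (by positivity) hm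
  have hD1 : (1 : ℝ) ≤ D := by exact_mod_cast hD
  refine ⟨1 / (3 * D * m), by positivity, ?_, ⟨1 / (3 * D * m), by push_cast; ring⟩,
    fun g hg => ?_⟩
  · rw [div_lt_iff₀ hB] at hm
    rw [div_le_iff₀ (by positivity)]
    have h1 : m * B ≤ 3 * D * (m * B) := by nlinarith [mul_pos hm0 hB]
    nlinarith
  · obtain ⟨k, hk⟩ := h g hg
    refine ⟨3 * (m * k), by omega, ?_⟩
    push_cast
    rw [← hk]; field_simp

theorem count {τ ε1 ℓ : ℝ} {r : ℕ} (hr : 1 ≤ r) (e1 : 0 < ε1) (he : ε1 ≤ τ) (l0 : 0 < ℓ)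
    (l1 : ℓ ≤ 1 / 10) : ∃ (N : ℕ) (ε : ℝ), 6 ∣ N ∧ 8 ≤ ℓ * N ∧ ε1 / 2 ≤ ε ∧ ε ≤ ε1 ∧
      τ / N = ε * (ℓ / 8) ^ r := by
  set p := (ℓ / 8) ^ r with hp
  have p0 : 0 < p := by positivity
  have p1 : p ≤ ℓ / 8 := pow_le_of_le_one (by positivity) (by linarith) (by omega)
  set x := τ / (ε1 * p) with hx
  have hτ : 0 < τ := lt_of_lt_of_le e1 he
  have x0 : 0 < x := by positivity
  have x1 : x * (ε1 * p) = τ := by rw [hx]; field_simp
  have x2 : 8 ≤ ℓ * x := by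
    have h1 : 1 ≤ x * p := by
      by_contra h
      push Not at h
      nlinarith
    nlinarith
  have x3 : 80 ≤ x := by nlinarith
  have a1 : x / 6 ≤ (⌈x / 6⌉₊ : ℝ) := Nat.le_ceil _
  have a2 : (⌈x / 6⌉₊ : ℝ) < x / 6 + 1 := Nat.ceil_lt_add_one (by positivity)
  have hN : ((6 * ⌈x / 6⌉₊ : ℕ) : ℝ) = 6 * (⌈x / 6⌉₊ : ℝ) := by push_cast; ring
  set N := 6 * ⌈x / 6⌉₊ with hNd
  have n1 : x ≤ N := by linarith
  have n2 : (N : ℝ) ≤ 2 * x := by linarith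
  have n0 : (0 : ℝ) < N := by linarith
  refine ⟨N, τ / (N * p), Dvd.intro _ rfl, by nlinarith, ?_, ?_, by field_simp⟩
  · rw [le_div_iff₀ (by positivity), ← x1]
    nlinarith [mul_pos e1 p0]
  · rw [div_le_iff₀ (by positivity), ← x1]
    nlinarith [mul_pos e1 p0]

theorem obj_len {W : Set ℂ} {ℓ : ℝ} {O : Set Obj} (h : ObjGeo W ℓ O) (l0 : 0 < ℓ) {o : Obj}
    (ho : o ∈ O) : ‖o.y - o.fin‖ = o.Λ := by
  have h1 := h.len o ho
  unfold Obj.fin
  rw [sub_add_cancel_left, norm_neg, norm_mul, Complex.norm_I, mul_one, Complex.norm_real,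
    Real.norm_eq_abs, abs_mul, abs_of_pos (show 0 < o.Λ by linarith)]
  rcases h.sg o ho with h | h <;> rw [h] <;> simp

theorem seg_near {a b z : ℂ} (hz : z ∈ segment ℝ a b) : ‖z - a‖ ≤ ‖a - b‖ := by
  have h : segment ℝ a b ⊆ closedBall a ‖a - b‖ := (convex_closedBall _ _).segment_subset
    (mem_closedBall_self (norm_nonneg _)) (by rw [mem_closedBall_iff_norm, norm_sub_rev])
  exact mem_closedBall_iff_norm.1 (h hz)

theorem prepN (hB : BASIC) (hM : MOD) (hO : OBJ) (n r : ℕ) (c γ : ℝ) (ω : ℂ) (hn : 2 * r ≤ n)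
    (hr : 2 ≤ r) (hc : 0 < c) (hc1 : c ≤ 1 / 10) (hγ : 0 < γ) (hω : ‖ω‖ = 1)
    (hD : DATA r c γ ω) : PREPN n r := by
  classical
  intro Cg hCg
  refine ⟨c, ω, hc, fun s Γ hΓ κ hκ hκ1 => ?_⟩
  obtain ⟨mo, M, hM0, hmo, hFb, hmod⟩ := hM n s
  obtain ⟨dO, hdO, hO1⟩ := hO n s Γ hΓ
  obtain ⟨L, hL, hLg⟩ := short_gap hΓ.fin hΓ.ne
  obtain ⟨Dn, hDn, hden⟩ := com_den hΓ.fin hΓ.rat
  set τ := κ / 50 with hτ
  have t0 : 0 < τ := by positivity
  have hf : (1 : ℝ) ≤ r.factorial := by exact_mod_cast r.factorial_pos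
  set ε1 := τ / r.factorial with hε1
  have e10 : 0 < ε1 := by positivity
  have e11 : ε1 ≤ τ := div_le_self t0.le hf
  have e12 : ε1 * r.factorial = τ := by rw [hε1]; field_simp
  obtain ⟨ℓD, K1, hℓD, hK1, hD1⟩ := hD (21 * M + 2) τ (by positivity) t0
  refine ⟨τ, ε1 / 2, 21 * M + 2, min dO (min (1 / 10) (mo (κ / 2) / 2)),
    fun η => min (κ * η / (6 * Cg)) (mo (κ * η / (4 * Cg)) / 2), t0, by positivity, by positivity,
    lt_min hdO (lt_min (by norm_num) (half_pos (hmo _ (by positivity)))),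
    fun η hη => lt_min (by positivity) (half_pos (hmo _ (by positivity))), fun d hd => ?_⟩
  obtain ⟨d0, hd⟩ := hd
  have hd1 : d ≤ dO := hd.trans (min_le_left _ _)
  have hd2 : d ≤ 1 / 10 := hd.trans ((min_le_right _ _).trans (min_le_left _ _))
  have hd3 : d ≤ mo (κ / 2) / 2 := hd.trans ((min_le_right _ _).trans (min_le_right _ _))
  set a := min (1 / 100) (min d (κ * d * L / (9 * Cg))) with ha
  have a0 : 0 < a := lt_min (by norm_num) (lt_min d0 (by positivity))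
  have a1 : a ≤ 1 / 100 := min_le_left _ _
  have a2 : a ≤ d := (min_le_right _ _).trans (min_le_left _ _)
  have a3 : a ≤ κ * d * L / (9 * Cg) := (min_le_right _ _).trans (min_le_right _ _)
  refine ⟨a, a0, fun ℓ0 hℓ0 => ?_⟩
  set g := min a (min (γ * τ / 3) (τ / 9000)) with hg
  have g0 : 0 < g := lt_min a0 (lt_min (by positivity) (by positivity))
  have g1 : g ≤ a := min_le_left _ _
  have g2 : g ≤ γ * τ / 3 := (min_le_right _ _).trans (min_le_left _ _)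
  have g3 : g ≤ τ / 9000 := (min_le_right _ _).trans (min_le_right _ _)
  set K3 : ℝ := (n + 1) * M * 5 ^ (2 * r + 1) with hK3
  have k30 : 0 < K3 := by positivity
  have hmg := hmo g g0
  obtain ⟨ℓ, l0, hl, hrat, hk⟩ := scale hDn hden (B := min (min (min ℓ0 (d ^ 2)) (min ℓD (mo g / 5)))
    (min (min (κ / (K1 + 2 * K3)) (g / K3)) (min (L / 4) a)))
    (lt_min (lt_min (lt_min hℓ0 (by positivity)) (lt_min hℓD (by positivity)))
      (lt_min (lt_min (by positivity) (by positivity)) (lt_min (by positivity) a0)))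
  simp only [le_min_iff] at hl
  obtain ⟨⟨⟨q1, q2⟩, q3, q4⟩, ⟨q5, q6⟩, q7, q8⟩ := hl
  rw [le_div_iff₀ (by positivity)] at q5 q6
  have l1 : ℓ ≤ 1 / 10 := by linarith
  obtain ⟨N, ε, h6, hN8, e1, e2, hsig⟩ := count (r := r) (by omega) e10 e11 l0 l1
  have e0 : 0 < ε := by linarith
  have hNR : (0 : ℝ) < N := by
    by_contra h
    nlinarith [Nat.cast_nonneg (α := ℝ) N]
  have N0 : 0 < N := by exact_mod_cast hNR
  have haN : 8 ≤ a * N := hN8.trans (by gcongr)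
  have hfine : Fine n r s.F M g τ ℓ := ⟨hn, l0, l1, t0, by linarith, hM0, hFb,
    fun y z hy hz => hmod g g0 y z hy (by linarith), by rw [← hK3]; linarith⟩
  have hcen : ∀ Q, act s.W ℓ Q → ‖cen ℓ Q‖ ≤ 1 := fun Q hQ => H41.act_norm hB s.base l0 hQ
  set xw : ℕ := ⌈a * N⌉₊ + 3 with hxw
  have x1 : a * N + 3 ≤ xw := by
    have := Nat.le_ceil (a * N)
    rw [hxw]; push_cast; linarith
  have x2 : (xw : ℝ) ≤ a * N + 4 := by
    have := Nat.ceil_lt_add_one (show 0 ≤ a * N by positivity)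
    rw [hxw]; push_cast; linarith
  have x3 : (xw : ℝ) / N ≤ 2 * a := by rw [div_le_iff₀ hNR]; linarith
  have x4 : 2 * xw + 6 ≤ N := by
    have h1 : a * N ≤ 1 / 100 * N := by gcongr
    have : 2 * (xw : ℝ) + 6 ≤ N := by linarith
    exact_mod_cast this
  obtain ⟨O, hgeo, hgood⟩ := hO1 d ⟨d0, hd1⟩ ℓ l0 q2 hk
  have hZ : ∀ Q, ∃ (Z : Finset ℂ) (Lk : ℤ × ℤ → ℤ × ℤ → Finset ℂ), act s.W ℓ Q →
      (∀ ζ ∈ Z, ‖ζ - cen ℓ Q‖ ≤ ℓ / 3) ∧
        (∀ ζ ∈ Z, ∀ ζ' ∈ Z, ζ ≠ ζ' → c * ℓ ≤ |ζ.re - ζ'.re|) ∧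
        LkOK r c ℓ (cen ℓ Q) (TN (2 * r) r N s.F τ ε ℓ ω Q) Lk ∧
        ∀ m m', H58.Nb m m' → ∀ ζ ∈ Lk m m', ζ ∈ Z ∧
          ‖(TN (2 * r) r N s.F τ ε ℓ ω Q m' - TN (2 * r) r N s.F τ ε ℓ ω Q m).eval ζ‖ ≤
            K1 * ℓ ^ (2 * r + 1) := by
    intro Q
    by_cases hQ : act s.W ℓ Q
    · obtain ⟨Z, Lk, h⟩ := hD1 N ε ℓ _ _ _ _ _ _
        (hfine.cd hB (hcen Q hQ) e0 (by linarith) hω N0 hsig (by linarith)) q3
      exact ⟨Z, Lk, fun _ => h⟩
    · exact ⟨∅, fun _ _ => ∅, fun h => (hQ h).elim⟩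
  choose Z Lk hZ using hZ
  have hT : ∀ o : Obj, ∃ T : ℂ[X], (o ∈ O → o.thr → ∀ j ≤ n, ∀ z ∈ segment ℝ o.y o.fin,
      s.F j z = jet T j z) ∧ (¬o.thr → T = H58.tay (n + 1) s.F o.y) := by
    intro o
    by_cases h : o.thr
    · by_cases ho : o ∈ O
      · obtain ⟨g', hg', e1, e2⟩ := hgood.th' o ho h
        exact ⟨g'.T, fun _ _ => by rw [e1, e2]; exact hΓ.jets g' hg', fun h' => (h' h).elim⟩
      · exact ⟨0, fun h' => (ho h').elim, fun h' => (h' h).elim⟩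
    · exact ⟨_, fun _ h' => (h h').elim, fun _ => rfl⟩
  choose To hT1 hT2 using hT
  set S : Set ℝ := {u | 0 < u ∧ 2 * d ≤ mo u} with hS
  have hSne : S.Nonempty := ⟨κ / 2, by positivity, by linarith⟩
  have hSb : BddBelow S := ⟨0, fun u hu => hu.1.le⟩
  have hS0 : 0 ≤ sInf S := le_csInf hSne fun u hu => hu.1.le
  have hprobe : ∀ o ∈ O, ¬o.thr → ∀ u ∈ S, ∀ j ≤ n, ∀ z ∈ segment ℝ o.y o.fin,
      ‖jet (To o) j z - s.F j z‖ ≤ u := by
    intro o ho h u hu j hj z hz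
    have b1 := (hgood.prb o ho h).1
    have b2 := obj_len hgeo l0 ho
    have b3 : ‖o.y‖ ≤ 2 := by
      have m1 : midpoint ℝ o.y o.fin ∈ openSegment ℝ o.y o.fin := midpoint_mem_openSegment _ _
      have m2 := (hB.inn s.W _ s.base fun h' =>
        Set.disjoint_left.1 (hgeo.free o ho) m1 (subset_closure h')).2
      have m3 := seg_near (openSegment_subset_segment ℝ _ _ m1)
      have m4 := norm_sub_le (midpoint ℝ o.y o.fin) (midpoint ℝ o.y o.fin - o.y)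
      rw [sub_sub_cancel] at m4
      linarith
    rw [hT2 o h]
    exact (hmod u hu.1 o.y z b3 ((seg_near hz).trans (by linarith [hu.2])) j hj).1
  set ν0 := g + 2 * τ * ((xw : ℝ) / N) with hν0
  have v0 : 0 ≤ ν0 := by positivity
  have v1 : 2 * ν0 + 2 * (3 * τ / N) * xw ≤ 3 * a := by
    have e : 2 * ν0 + 2 * (3 * τ / N) * xw = 2 * g + 10 * τ * ((xw : ℝ) / N) := by
      rw [hν0]; ring
    have h1 : 10 * τ * ((xw : ℝ) / N) ≤ 10 * (1 / 50) * (2 * a) := by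
      gcongr; linarith
    rw [e]; linarith
  have hpow : ℓ ^ (2 * r) ≤ ℓ := pow_le_of_le_one l0.le (by linarith) (by omega)
  refine ⟨⟨ℓ, N, xw, c, (K1 + 2 * K3) * ℓ ^ (2 * r + 1), 3 * τ / N, TN n r N s.F τ ε ℓ ω, Z, Lk⟩,
    O, To, fun o => ν0 + if o.thr then 0 else sInf S, ε, q1, ⟨⟨l0, l1, hrat, N0, h6, x4, hc, hc1,
      by positivity, by positivity, fun Q hQ => (hZ Q hQ).1, fun Q hQ => (hZ Q hQ).2.1,
      fun Q hQ m m' hnb ζ hζ => ?_, fun Q hQ m hm => ?_, fun i j x hij hx => TN_shv hij hx,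
      fun k j x hx => TN_shh h6 hx, hgeo, fun o ho j hj => ?_, fun o ho j hj z hz => ?_,
      fun o ho => ?_, fun o ho j hj x hx z hz hzs => ?_⟩, hgood, rfl, q2, ?_, e1,
      fun Q hQ => hfine.cd hB (hcen Q hQ) e0 (by linarith) hω N0 hsig (by linarith),
      fun Q hQ => (hZ Q hQ).2.2.1, x1, fun o ho h => ?_, fun o ho h η hη hdη => ?_⟩⟩
  · obtain ⟨b1, b2⟩ := (hZ Q hQ).2.2.2 m m' hnb ζ hζ
    refine ⟨b1, (hfine.lk hB (hcen Q hQ) N0 hnb (((hZ Q hQ).1 ζ b1).trans (by linarith))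
      b2).trans (le_of_eq ?_)⟩
    rw [hK3]; ring
  · refine hfine.close hB (hcen Q hQ) e0 hω N0 ?_ hm
    have : ε * r.factorial ≤ ε1 * r.factorial := by gcongr
    linarith
  · by_cases h : o.thr
    · exact ⟨(hT1 o ho h j hj _ (left_mem_segment _ _ _)).symm,
        fun _ => (hT1 o ho h j hj _ (right_mem_segment _ _ _)).symm⟩
    · exact ⟨by rw [hT2 o h]; exact hB.jt _ _ _ j (by omega), fun h' => (h h').elim⟩
  · by_cases h : o.thr
    · rw [hT1 o ho h j hj z hz, sub_self, norm_zero]; positivity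
    · exact hprobe o ho h _ ⟨by positivity, by linarith⟩ j hj z hz
  · split_ifs <;> linarith
  · obtain ⟨-, hQ, -⟩ := hgeo.st o ho j hj
    have hz' : ‖z - cen ℓ (o.k, j)‖ ≤ 3 * ℓ := (mem_ball_iff_norm.1 hz).le.trans (by linarith)
    obtain ⟨b1, b2⟩ := hfine.mid (ε := ε) (ω := ω) hB (hcen _ hQ) (hgood.k3 o ho) N0 (by linarith)
      (xw := xw) (by omega) hx.1 hx.2 hz'
    refine ⟨?_, fun x' hx' => b2 x' hx'.1⟩
    have b3 : ‖(To o).eval z - s.F 0 z‖ ≤ if o.thr then 0 else sInf S := by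
      split_ifs with h
      · rw [hT1 o ho h 0 (Nat.zero_le _) z hzs, hB.j0, sub_self, norm_zero]
      · refine le_csInf hSne fun u hu => ?_
        rw [← hB.j0]
        exact hprobe o ho h u hu 0 (Nat.zero_le _) z hzs
    show ‖(To o - TN n r N s.F τ ε ℓ ω (o.k, j) (0, x)).eval z‖ ≤ _
    rw [eval_sub, ← sub_add_sub_cancel _ (s.F 0 z)]
    exact (norm_add_le _ _).trans (by linarith)
  · show (K1 + 2 * K3) * ℓ ^ (2 * r + 1) ≤ κ * ℓ ^ (2 * r)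
    rw [pow_succ, mul_comm (ℓ ^ (2 * r)), ← mul_assoc]
    gcongr
    linarith
  · obtain ⟨g', hg', e1, e2⟩ := hgood.th' o ho h
    have b1 : L ≤ o.Λ := by rw [← obj_len hgeo l0 ho, e1, e2]; exact hLg g' hg'
    have b2 := hgood.card o ho
    refine ⟨?_, by show 4 * ℓ ≤ _; linarith⟩
    show Cg * o.St.card * (2 * (ν0 + if o.thr then 0 else sInf S) + 2 * (3 * τ / N) * xw) / κ +
      ℓ ^ (2 * r) ≤ _
    rw [if_pos h, add_zero]
    have b3 : Cg * o.St.card * (2 * ν0 + 2 * (3 * τ / N) * xw) / κ ≤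
        Cg * (3 / d) * (3 * (κ * d * L / (9 * Cg))) / κ := by
      gcongr
      linarith
    have b4 : Cg * (3 / d) * (3 * (κ * d * L / (9 * Cg))) / κ = L := by field_simp; ring
    linarith
  · have b2 : (o.St.card : ℝ) ≤ 1 := by exact_mod_cast (hgood.prb o ho h).2
    have b5 : d ≤ κ * η / (6 * Cg) := hdη.trans (min_le_left _ _)
    have b6 : d ≤ mo (κ * η / (4 * Cg)) / 2 := hdη.trans (min_le_right _ _)
    have b7 : sInf S ≤ κ * η / (4 * Cg) := csInf_le hSb ⟨by positivity, by linarith⟩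
    show Cg * o.St.card * (2 * (ν0 + if o.thr then 0 else sInf S) + 2 * (3 * τ / N) * xw) / κ ≤ _
    rw [if_neg h]
    have b8 : 2 * (ν0 + sInf S) + 2 * (3 * τ / N) * xw ≤
        3 * (κ * η / (6 * Cg)) + 2 * (κ * η / (4 * Cg)) := by linarith
    have b3 : Cg * o.St.card * (2 * (ν0 + sInf S) + 2 * (3 * τ / N) * xw) / κ ≤
        Cg * 1 * (3 * (κ * η / (6 * Cg)) + 2 * (κ * η / (4 * Cg))) / κ :=
      div_le_div_of_nonneg_right (mul_le_mul (by gcongr) b8 (by positivity) (by positivity)) hκ.le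
    have b4 : Cg * 1 * (3 * (κ * η / (6 * Cg)) + 2 * (κ * η / (4 * Cg))) / κ = η := by
      field_simp; ring
    linarith

end

end Pool.Agent.MP_d32a63_an.H95
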