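import Pool.Agent.MP_d32a63_an.H95.Tools

/-! Attaching one lens, and attaching a forest. -/

namespace Pool.Agent.MP_d32a63_an.H95

open Set Filter Topology Polynomial

variable {n : ℕ}

theorem jet_deriv (T : ℂ[X]) (j : ℕ) (z : ℂ) : HasDerivAt (jet T j) (jet T (j + 1) z) z := by
  unfold jet
  rw [Function.iterate_succ_apply']
  exact Polynomial.hasDerivAt _ z

theorem cont_jet (T : ℂ[X]) (j : ℕ) : Continuous (jet T j) :=
  continuous_iff_continuousAt.2 fun z => (jet_deriv T j z).continuousAt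

theorem glues {F H T : ℕ → ℂ → ℂ} {A B : Set ℂ} {κ : ℝ} (hκ : 0 < κ) (hA : IsClosed A)
    (hB : IsClosed B) (hF : ∀ j, Continuous (F j)) (hH : ∀ j, Continuous (H j))
    (hT : ∀ j ≤ n, ContinuousOn (T j) B) (hAB : ∀ j ≤ n, ∀ z ∈ A, z ∈ B → H j z = T j z)
    (h1 : ∀ j ≤ n, ∀ z, ‖H j z - F j z‖ ≤ κ) (h2 : ∀ j ≤ n, ∀ z ∈ B, ‖T j z - F j z‖ ≤ κ) :
    ∃ H' : ℕ → ℂ → ℂ, (∀ j, Continuous (H' j)) ∧ (∀ j ≤ n, ∀ z ∈ A, H' j z = H j z) ∧
      (∀ j ≤ n, ∀ z ∈ B, H' j z = T j z) ∧ ∀ j ≤ n, ∀ z, ‖H' j z - F j z‖ ≤ κ := by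
  have : ∀ j, ∃ K : ℂ → ℂ, Continuous K ∧ (j ≤ n → (∀ z ∈ A, K z = H j z) ∧
      (∀ z ∈ B, K z = T j z) ∧ ∀ z, ‖K z - F j z‖ ≤ κ) := fun j => by
    by_cases hj : j ≤ n
    · obtain ⟨K, a, b⟩ := glue hκ hA hB (hF j) (hH j).continuousOn (hT j hj) (hAB j hj)
        (fun z _ => h1 j hj z) (h2 j hj)
      exact ⟨K, a, fun _ => b⟩
    · exact ⟨H j, hH j, fun h => (hj h).elim⟩
  choose K a b using this
  exact ⟨K, a, fun j hj => (b j hj).1, fun j hj => (b j hj).2.1, fun j hj => (b j hj).2.2⟩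

theorem der_congr {W : Set ℂ} (hW : IsOpen W) {F H : ℕ → ℂ → ℂ}
    (h : ∀ j < n, ∀ z ∈ W, HasDerivAt (F j) (F (j + 1) z) z)
    (e : ∀ j ≤ n, ∀ z ∈ W, H j z = F j z) :
    ∀ j < n, ∀ z ∈ W, HasDerivAt (H j) (H (j + 1) z) z := fun j hj z hz => by
  rw [e (j + 1) hj z hz]
  exact (h j hj z hz).congr_of_eventuallyEq
    (Filter.mem_of_superset (hW.mem_nhds hz) fun y hy => e j hj.le y hy)

/-- The core `s'` extends `s`, keeps the field on `O` and meets `O` only in new points of `V`. -/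
structure Ext (F0 : ℕ → ℂ → ℂ) (κ : ℝ) (s s' : Core n) (O V : Set ℂ) : Prop where
  sub : s.W ⊆ s'.W
  keep : ∀ j ≤ n, ∀ z ∈ closure s.W ∪ O, s'.F j z = s.F j z
  close : ∀ j ≤ n, ∀ z, ‖s'.F j z - F0 j z‖ ≤ κ
  avoid : closure s'.W ∩ O ⊆ closure s.W ∪ V

theorem reglue (s : Core n) {F0 T : ℕ → ℂ → ℂ} {κ : ℝ} (hκ : 0 < κ)
    (hF : ∀ j, Continuous (F0 j)) (hs : ∀ j ≤ n, ∀ z, ‖s.F j z - F0 j z‖ ≤ κ) {O B : Set ℂ}
    (hO : IsClosed O) (hB : IsClosed B) (hT : ∀ j ≤ n, ContinuousOn (T j) B)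
    (hAB : ∀ j ≤ n, ∀ z ∈ closure s.W ∪ O, z ∈ B → s.F j z = T j z)
    (h2 : ∀ j ≤ n, ∀ z ∈ B, ‖T j z - F0 j z‖ ≤ κ) :
    ∃ s' : Core n, s'.W = s.W ∧ (∀ j ≤ n, ∀ z ∈ closure s.W ∪ O, s'.F j z = s.F j z) ∧
      (∀ j ≤ n, ∀ z ∈ B, s'.F j z = T j z) ∧ ∀ j ≤ n, ∀ z, ‖s'.F j z - F0 j z‖ ≤ κ := by
  obtain ⟨H, a, b, c, d⟩ := glues hκ (isClosed_closure.union hO) hB hF s.cont hT hAB hs h2
  exact ⟨{ s with
    F := H
    cont := a
    der := der_congr s.isOpen s.der fun j hj z hz => b j hj z (Or.inl (subset_closure hz)) },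
    rfl, b, c, d⟩

theorem off_seg {p v : ℂ} (h : p ≠ v) {V : Set ℂ} (hV : IsOpen V) (hne : V.Nonempty) :
    ∃ x ∈ V, x ∉ segment ℝ p v := by
  obtain ⟨x, hx⟩ := hne
  by_cases h1 : x ∈ segment ℝ p v
  · obtain ⟨s, hs, h2⟩ := step hV hx (Complex.I * (v - p))
    refine ⟨_, h2, fun h3 => ?_⟩
    have hv : v - p ≠ 0 := sub_ne_zero.2 h.symm
    have h4 := ((mem_seg h).1 h3).1
    rw [co_add, mul_assoc, mul_assoc, mul_inv_cancel₀ hv] at h4
    simp [((mem_seg h).1 h1).1, hs.ne'] at h4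
  · exact ⟨x, hx, h1⟩

theorem nbhd {C : Set ℂ} (hC : IsClosed C) (hT : Tame C) {p v : ℂ} (h : p ≠ v)
    (h1 : segment ℝ p v ∩ C ⊆ {p}) :
    ∃ t > 0, ∃ N : Set ℂ, IsOpen N ∧ Convex ℝ N ∧ N ⊆ Cᶜ ∧
      ∀ z ∈ clens p v t, (z = p → z ∉ C) → z ∈ N := by
  have hc : Continuous fun s : ℝ => p + s * (v - p) := by fun_prop
  have near : ∀ x : ℝ, p + x * (v - p) ∉ C →
      ∃ ε > 0, ∀ y : ℝ, |y - x| < ε → p + y * (v - p) ∉ C := fun x hx => by
    have := (hc.tendsto x).eventually (hC.isOpen_compl.mem_nhds hx)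
    simpa [Metric.eventually_nhds_iff, Real.dist_eq] using this
  obtain ⟨ε, hε, h2⟩ := near 1 fun hv => h.symm (h1 ⟨right_mem_segment ℝ p v, by simpa using hv⟩)
  obtain ⟨α, hα, h3, h4⟩ : ∃ α : ℝ, 0 ≤ α ∧ (α = 0 → p ∈ C) ∧
      ∀ y : ℝ, -α < y → y ≤ 0 → p + y * (v - p) ∉ C := by
    by_cases hp : p ∈ C
    · exact ⟨0, le_rfl, fun _ => hp, fun y a b => by linarith⟩
    · obtain ⟨α, hα, h3⟩ := near 0 (by simpa using hp)
      exact ⟨α, hα.le, fun h0 => (hα.ne' h0).elim, fun y a b => h3 y (by rw [abs_lt]; constructor <;> linarith)⟩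
  have hv : v - p ≠ 0 := sub_ne_zero.2 h.symm
  have hL : 0 < 1 + ε + α := by linarith
  set p' := p + (-α : ℝ) * (v - p) with hp'
  set v' := p + (1 + ε : ℝ) * (v - p) with hv'
  have hd : v' - p' = (1 + ε + α : ℝ) * (v - p) := by rw [hp', hv']; push_cast; ring
  have hL' : ((1 + ε + α : ℝ) : ℂ) ≠ 0 := by exact_mod_cast hL.ne'
  have h' : p' ≠ v' := fun e => by
    rw [e, sub_self] at hd; exact mul_ne_zero hL' hv hd.symm
  have e : ∀ z, co p' v' z = (co p v z + α) / (1 + ε + α : ℝ) := fun z => by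
    unfold co; rw [hd, hp']; push_cast; push_cast at hL'; field_simp; ring
  have e1 : ∀ z, (co p' v' z).re * (1 + ε + α) = (co p v z).re + α := fun z => by
    rw [e, Complex.div_ofReal_re]; simp; field_simp
  have e2 : ∀ z, |(co p' v' z).im| * (1 + ε + α) = |(co p v z).im| := fun z => by
    rw [e, Complex.div_ofReal_im, abs_div, abs_of_pos hL]; simp; field_simp
  obtain ⟨t, ht, h5⟩ := hT p' v' h' (disjoint_left.2 fun z hz hzC => by
    obtain ⟨a, b, c⟩ := (mem_oseg h').1 hz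
    have a1 := e1 z
    have a2 := e2 z
    rw [a, abs_zero, zero_mul, eq_comm, abs_eq_zero] at a2
    have a3 : z = p + (co p v z).re * (v - p) := by
      rw [show ((co p v z).re : ℂ) = co p v z from Complex.ext (by simp) (by simp [a2])]
      exact co_inv h z
    rcases le_or_gt (co p v z).re 0 with b1 | b1
    · exact h4 _ (by nlinarith) b1 (a3 ▸ hzC)
    rcases le_or_gt (co p v z).re 1 with b2 | b2
    · have : z = p := h1 ⟨(mem_seg h).2 ⟨a2, b1.le, b2⟩, hzC⟩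
      rw [this, co_left] at b1; simp at b1
    · exact h2 _ (by rw [abs_lt]; constructor <;> nlinarith) (a3 ▸ hzC))
  refine ⟨t / 2, by linarith, lens p' v' t, isOpen_lens _ _ _, ?_, fun z hz hzC => ?_,
    fun z hz hp => ?_⟩
  · have A := fun α β γ => (aff_co p' v' α β γ).convex
    convert ((A t (-1) 0).inter (A t 1 0)).inter ((A (-t) (-1) t).inter (A (-t) 1 t)) using 1
    ext z
    simp only [mem_lens, abs_lt, mem_inter_iff, mem_ofPred_eq]
    constructor <;> rintro ⟨⟨a, b⟩, c, d⟩ <;> exact ⟨⟨by linarith, by linarith⟩, by linarith, by linarith⟩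
  · rcases h5 ⟨lens_sub _ _ _ hz, hzC⟩ with rfl | rfl
    · simpa [co_left] using (mem_lens.1 hz).1
    · simpa [co_right h'] using (mem_lens.1 hz).2
  · obtain ⟨a, b⟩ := clens_re (by linarith) hz
    obtain ⟨c, d⟩ := mem_clens.1 hz
    have a1 := e1 z
    have a2 := e2 z
    have hpos : 0 < (co p v z).re + α := by
      by_contra hc
      have r0 : (co p v z).re = 0 := by linarith
      rw [r0, mul_zero, abs_nonpos_iff] at c
      have : z = p := by rw [co_inv h z, Complex.ext (w := 0) r0 c]; simp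
      exact hp this (this ▸ h3 (by linarith))
    rw [mem_lens]
    constructor <;> refine lt_of_mul_lt_mul_right ?_ hL.le
    · rw [a2, mul_assoc, a1]; nlinarith [mul_pos ht hpos, mul_nonneg ht.le hα]
    · rw [a2, mul_assoc, sub_mul, a1]; nlinarith [mul_pos ht hε]

theorem att (s : Core n) {F0 : ℕ → ℂ → ℂ} (hF : ∀ j, Continuous (F0 j)) {κ : ℝ} (hκ : 0 < κ)
    (hs : ∀ j ≤ n, ∀ z, ‖s.F j z - F0 j z‖ ≤ κ) {O : Set ℂ} (hO : IsClosed O) (hT : Tame O)
    {p v : ℂ} (h : p ≠ v) {T : ℂ[X]} (h1 : segment ℝ p v ∩ closure s.W ⊆ {p})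
    (h2 : Disjoint (openSegment ℝ p v) O)
    (h3 : ∀ j ≤ n, s.F j p = jet T j p ∧ s.F j v = jet T j v)
    (h4 : ∀ j ≤ n, ∀ z ∈ segment ℝ p v, ‖jet T j z - F0 j z‖ < κ) :
    ∃ s', Ext F0 κ s s' O {p, v} ∧ openSegment ℝ p v ⊆ s'.W := by
  obtain ⟨t1, p1, N, hN, hNc, hNU, hNs⟩ := nbhd isClosed_closure s.tame h h1
  obtain ⟨t2, p2, hO2⟩ := hT p v h h2
  obtain ⟨x, hx, hx'⟩ := off_seg h (isClosed_closure.isOpen_compl.inter Metric.isOpen_ball) s.meetP
  obtain ⟨y, hy, hy'⟩ := off_seg h (isClosed_closure.isOpen_compl.inter Metric.isOpen_ball) s.meetM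
  have hop : IsOpen (({x}ᶜ ∩ {y}ᶜ) ∩ ⋂ j ∈ Finset.range (n + 1), {z | ‖jet T j z - F0 j z‖ < κ}) :=
    (isOpen_compl_singleton.inter isOpen_compl_singleton).inter (isOpen_biInter_finset fun j _ =>
      isOpen_lt ((cont_jet T j).sub (hF j)).norm continuous_const)
  obtain ⟨t3, p3, h5⟩ := thin h hop fun z hz => ⟨⟨fun e => hx' (e ▸ hz), fun e => hy' (e ▸ hz)⟩,
    mem_iInter₂.2 fun j hj => h4 j (Nat.lt_succ_iff.1 (Finset.mem_range.1 hj)) z hz⟩
  obtain ⟨t, ht, l1, l2, l3, hv⟩ : ∃ t > 0, t ≤ t1 ∧ t ≤ t2 ∧ t ≤ t3 ∧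
      t * |((v - p)⁻¹).im| ≠ |((v - p)⁻¹).re| := by
    have m0 : 0 < min t1 (min t2 t3) := by positivity
    have m1 := min_le_left t1 (min t2 t3)
    have m2 := (min_le_right t1 _).trans (min_le_left t2 t3)
    have m3 := (min_le_right t1 _).trans (min_le_right t2 t3)
    generalize min t1 (min t2 t3) = m at *
    by_contra hc
    push Not at hc
    have a := hc m m0 m1 m2 m3
    have b := hc (m / 2) (by linarith) (by linarith) (by linarith) (by linarith)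
    have c : |((v - p)⁻¹).im| = 0 := by
      refine mul_left_cancel₀ m0.ne' ?_
      linarith
    rw [c, mul_zero, eq_comm] at a
    exact inv_ne_zero (sub_ne_zero.2 h.symm) (Complex.ext (abs_eq_zero.1 a) (abs_eq_zero.1 c))
  have k1 : ∀ z ∈ clens p v t, (z = p → z ∉ closure s.W) → z ∈ N :=
    fun z hz => hNs z (clens_mono ht l1 hz)
  have k2 : ∀ z ∈ clens p v t, z ∈ closure s.W → z = p := fun z hz hz' => by
    by_contra hc; exact hNU (k1 z hz fun e => (hc e).elim) hz'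
  have k3 : ∀ z ∈ clens p v t, z ∈ O → z ∈ ({p, v} : Set ℂ) :=
    fun z hz hz' => hO2 ⟨clens_mono ht l2 hz, hz'⟩
  have k4 := (clens_mono ht l3).trans h5
  obtain ⟨H, a, b, c, d⟩ := glues (T := jet T) hκ (isClosed_closure.union hO) (isClosed_clens p v t)
    hF s.cont (fun j _ => (cont_jet T j).continuousOn) (fun j hj z hz hz' => by
      rcases hz with hz | hz
      · rw [k2 z hz' hz]; exact (h3 j hj).1
      · rcases k3 z hz' hz with rfl | rfl
        exacts [(h3 j hj).1, (h3 j hj).2]) hs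
    fun j hj z hz => (mem_iInter₂.1 (k4 hz).2 j (Finset.mem_range.2 (Nat.lt_succ_iff.2 hj))).le
  obtain ⟨X, hX, hpX, hfl⟩ := flat_lens h ht hv
  have ecl : closure (s.W ∪ lens p v t) = closure s.W ∪ clens p v t := by
    rw [closure_union, closure_lens h ht]
  refine ⟨⟨s.W ∪ lens p v t, H, s.X ∪ X, s.isOpen.union (isOpen_lens _ _ _),
    s.base.trans subset_union_left, a, fun j hj z hz => ?_, ?_, ?_, ⟨x, ?_, hx.2⟩, ⟨y, ?_, hy.2⟩,
    s.fin.union hX, fun z z1 z2 z3 => ?_⟩, ⟨subset_union_left, b, d, fun z hz => ?_⟩,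
    (oseg_sub_lens h ht).trans subset_union_right⟩
  · rcases hz with hz | hz
    · exact der_congr s.isOpen s.der (fun j hj z hz => b j hj z (Or.inl (subset_closure hz))) j hj z hz
    · exact der_congr (isOpen_lens p v t) (fun j _ z _ => jet_deriv T j z)
        (fun j hj z hz => c j hj z (lens_sub _ _ _ hz)) j hj z hz
  · rw [ecl]; exact s.tame.union (tame_clens p v t)
  · rw [ecl, compl_union, ← Set.sdiff_eq]
    exact conn_diff isClosed_closure.isOpen_compl s.conn hN hNU (isClosed_clens p v t)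
      (fun z hz => k1 z hz.1 fun _ => hz.2)
      (conn_lens h ht hN hNc fun z hz hp => k1 z hz fun e => (hp e).elim)
  · rw [ecl]; rintro (e | e)
    exacts [hx.1 e, (k4 e).1.1 rfl]
  · rw [ecl]; rintro (e | e)
    exacts [hy.1 e, (k4 e).1.2 rfl]
  · rw [ecl] at z1
    by_cases hz : z ∈ clens p v t
    · refine (hfl z hz (fun e => z2 (Or.inr e)) fun e => z3 (Or.inr e)).congr ?_
      have : z ∉ closure s.W := fun e => z3 (Or.inr (k2 z hz e ▸ hpX))
      filter_upwards [isClosed_closure.isOpen_compl.mem_nhds this] with w hw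
      exact ⟨fun e => e.resolve_left fun e => hw (subset_closure e), Or.inr⟩
    · refine (s.flat z (z1.resolve_right hz) (fun e => z2 (Or.inl e))
        fun e => z3 (Or.inl e)).congr ?_
      filter_upwards [(isClosed_clens p v t).isOpen_compl.mem_nhds hz] with w hw
      exact ⟨fun e => e.resolve_right fun e => hw (lens_sub _ _ _ e), Or.inl⟩
  · rcases ecl ▸ hz.1 with e | e
    exacts [Or.inl e, Or.inr (k3 z e hz.2)]

theorem forest {F0 : ℕ → ℂ → ℂ} {κ : ℝ} {ι : Type*} (p v : ι → ℂ) (φ : ℂ → ℝ) (J : ℕ → ℂ → ℂ)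
    (Res : ι → Set ℂ → Prop) (mono : ∀ e W W', W ⊆ W' → Res e W → Res e W') (E : Finset ι)
    (one : ∀ e ∈ E, ∀ (s : Core n) (O : Set ℂ), IsClosed O → Tame O →
      (∀ j ≤ n, ∀ z, ‖s.F j z - F0 j z‖ ≤ κ) → segment ℝ (p e) (v e) ∩ closure s.W ⊆ {p e} →
      Disjoint (openSegment ℝ (p e) (v e)) O →
      (∀ j ≤ n, s.F j (p e) = J j (p e) ∧ s.F j (v e) = J j (v e)) →
      ∃ s', Ext F0 κ s s' O {p e, v e} ∧ Res e s'.W)
    (hφ : ∀ e ∈ E, φ (p e) < φ (v e)) (hinj : ∀ e ∈ E, ∀ e' ∈ E, v e = v e' → e = e')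
    (hd : ∀ e ∈ E, ∀ e' ∈ E, e ≠ e' →
      Disjoint (openSegment ℝ (p e) (v e)) (segment ℝ (p e') (v e')))
    (s : Core n) (O : Set ℂ) (hO : IsClosed O) (hT : Tame O)
    (hs : ∀ j ≤ n, ∀ z, ‖s.F j z - F0 j z‖ ≤ κ)
    (h1 : ∀ e ∈ E, segment ℝ (p e) (v e) ∩ closure s.W ⊆ {p e})
    (h2 : ∀ e ∈ E, Disjoint (openSegment ℝ (p e) (v e)) O)
    (h3 : ∀ e ∈ E, ∀ j ≤ n, s.F j (p e) = J j (p e) ∧ s.F j (v e) = J j (v e)) :
    ∃ s', Ext F0 κ s s' O (⋃ e ∈ E, {p e, v e}) ∧ ∀ e ∈ E, Res e s'.W := by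
  classical
  induction E using Finset.induction_on_min_value (fun e => φ (v e)) generalizing s with
  | empty => exact ⟨s, ⟨subset_rfl, fun _ _ _ _ => rfl, hs, fun z hz => Or.inl hz.1⟩, by simp⟩
  | insert a E ha hmin ih =>
    have m0 : a ∈ insert a E := Finset.mem_insert_self a E
    have m1 : ∀ e ∈ E, e ∈ insert a E := fun e => Finset.mem_insert_of_mem
    have ne : ∀ e ∈ E, a ≠ e := fun e he h => ha (h ▸ he)
    have pv : ∀ e ∈ insert a E, p e ≠ v e := fun e he h => (hφ e he).ne (by rw [h])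
    obtain ⟨s1, x1, r1⟩ := one a m0 s (O ∪ ⋃ e ∈ E, segment ℝ (p e) (v e))
      (hO.union (isClosed_biUnion_finset fun e _ => isClosed_seg _ _))
      (hT.union (tame_biUnion E _ fun e he => tame_seg (pv e (m1 e he)))) hs (h1 a m0)
      (disjoint_union_right.2 ⟨h2 a m0, disjoint_iUnion₂_right.2 fun e he =>
        hd a m0 e (m1 e he) (ne e he)⟩) (h3 a m0)
    have ms : ∀ e ∈ E, ∀ z ∈ segment ℝ (p e) (v e), z ∈ O ∪ ⋃ e ∈ E, segment ℝ (p e) (v e) :=
      fun e he z hz => Or.inr (mem_iUnion₂.2 ⟨e, he, hz⟩)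
    obtain ⟨s2, x2, r2⟩ := ih (fun e he => one e (m1 e he)) (fun e he => hφ e (m1 e he))
      (fun e he e' he' => hinj e (m1 e he) e' (m1 e' he'))
      (fun e he e' he' => hd e (m1 e he) e' (m1 e' he')) s1 x1.close (fun e he z hz => by
        rcases x1.avoid ⟨hz.2, ms e he z hz.1⟩ with h | h
        · exact h1 e (m1 e he) ⟨hz.1, h⟩
        have hz' : z ∈ segment ℝ (p a) (v a) := by
          rcases h with rfl | rfl
          exacts [left_mem_segment _ _ _, right_mem_segment _ _ _]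
        rcases seg_cases hz.1 with h4 | h4 | h4
        · exact h4
        · rcases h with h | h
          · have := hmin e he
            have := hφ a m0
            rw [← h, h4] at this; linarith
          · exact (ne e he (hinj a m0 e (m1 e he) (h.symm.trans h4))).elim
        · exact (disjoint_left.1 (hd e (m1 e he) a m0 (ne e he).symm) h4 hz').elim)
      (fun e he => h2 e (m1 e he)) fun e he j hj => by
        rw [x1.keep j hj _ (Or.inr (ms e he _ (left_mem_segment _ _ _))),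
          x1.keep j hj _ (Or.inr (ms e he _ (right_mem_segment _ _ _)))]
        exact h3 e (m1 e he) j hj
    refine ⟨s2, ⟨x1.sub.trans x2.sub, fun j hj z hz => ?_, x2.close, fun z hz => ?_⟩,
      fun e he => ?_⟩
    · rw [x2.keep j hj z (hz.imp_left fun h => closure_mono x1.sub h),
        x1.keep j hj z (hz.imp_right Or.inl)]
    · rw [Finset.set_biUnion_insert]
      rcases x2.avoid hz with h | h
      · exact (x1.avoid ⟨h, Or.inl hz.2⟩).imp_right Or.inl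
      · exact Or.inr (Or.inr h)
    · rcases Finset.mem_insert.1 he with rfl | he
      exacts [mono _ _ _ x2.sub r1, r2 e he]

end Pool.Agent.MP_d32a63_an.H95
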