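import Pool.Agent.MP_d32a63_an.H95.Attach

/-! The coil: an edge whose two ends carry different polynomials. -/

namespace Pool.Agent.MP_d32a63_an.H95

open Set Filter Topology Polynomial

variable {n : ℕ}

theorem jet_add (P Q : ℂ[X]) (j : ℕ) (z : ℂ) : jet (P + Q) j z = jet P j z + jet Q j z := by
  unfold jet; rw [iterate_map_add, eval_add]

theorem jet_sub (P Q : ℂ[X]) (j : ℕ) (z : ℂ) : jet (P - Q) j z = jet P j z - jet Q j z := by
  unfold jet; rw [iterate_derivative_sub, eval_sub]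

theorem jet_C_mul (a : ℂ) (P : ℂ[X]) (j : ℕ) (z : ℂ) : jet (C a * P) j z = a * jet P j z := by
  unfold jet; rw [iterate_derivative_C_mul, eval_mul, eval_C]

theorem jet_zero_of_dvd {P : ℂ[X]} {a : ℂ} (h : (X - C a) ^ (n + 1) ∣ P) {j : ℕ} (hj : j ≤ n) :
    jet P j a = 0 := by
  obtain ⟨Q, hQ⟩ := pow_sub_dvd_iterate_derivative_of_pow_dvd j h
  unfold jet
  rw [hQ]
  simp [show n + 1 - j ≠ 0 by omega]

theorem jet_eq (P : ℂ[X]) (j : ℕ) : jet P j = iteratedDeriv j fun z => P.eval z := by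
  induction j with
  | zero => ext z; simp [jet]
  | succ j ih => ext z; rw [iteratedDeriv_succ, ← ih, (jet_deriv P j z).deriv]

theorem jet_le {P : ℂ[X]} {z : ℂ} {ρ M : ℝ} (hρ : 0 < ρ) (h1 : ρ ≤ 1)
    (h : ∀ y ∈ Metric.sphere z ρ, ‖P.eval y‖ ≤ M) (hM : 0 ≤ M) {j : ℕ} (hj : j ≤ n) :
    ‖jet P j z‖ ≤ n.factorial * M / ρ ^ n := by
  rw [jet_eq]
  refine (Complex.norm_iteratedDeriv_le_of_forall_mem_sphere_norm_le j hρ
    P.differentiable.diffContOnCl h).trans ?_
  have := pow_le_pow_of_le_one hρ.le h1 hj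
  gcongr

theorem hermite (n : ℕ) : ∃ M > 0, ∀ a b : ℂ, a ≠ b → ∃ χ : ℂ[X], (X - C a) ^ (n + 1) ∣ χ ∧
    (X - C b) ^ (n + 1) ∣ χ - 1 ∧ ∀ y, ‖y - a‖ ≤ 2 * ‖b - a‖ → ‖χ.eval y‖ ≤ M := by
  obtain ⟨A, B, h⟩ : IsCoprime ((X : ℂ[X]) ^ (n + 1)) ((X - 1) ^ (n + 1)) :=
    IsCoprime.pow ⟨1, -1, by ring⟩
  obtain ⟨M, hM⟩ := (isCompact_closedBall (0 : ℂ) 2).exists_bound_of_continuousOn
    (A * X ^ (n + 1)).continuous.continuousOn
  refine ⟨|M| + 1, by positivity, fun a b hab => ?_⟩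
  have hc : b - a ≠ 0 := sub_ne_zero.2 hab.symm
  refine ⟨(A * X ^ (n + 1)).comp (C (b - a)⁻¹ * (X - C a)), ?_, ?_, fun y hy => ?_⟩
  · simp only [mul_comp, pow_comp, X_comp, mul_pow]
    exact Dvd.dvd.mul_left (Dvd.intro_left _ rfl) _
  · have e : C (b - a)⁻¹ * (X - C a) - 1 = C (b - a)⁻¹ * (X - C b) := by
      rw [← C_1, ← inv_mul_cancel₀ hc, C_mul, C_sub]; ring
    have := congrArg (fun P => P.comp (C (b - a)⁻¹ * (X - C a))) h
    simp only [add_comp, one_comp] at this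
    rw [← this, sub_add_cancel_left, dvd_neg]
    simp only [mul_comp, pow_comp, sub_comp, X_comp, one_comp, e, mul_pow]
    exact Dvd.dvd.mul_left (Dvd.intro_left _ rfl) _
  · rw [eval_comp]
    refine (hM _ ?_).trans ((le_abs_self M).trans (by linarith))
    have := norm_pos_iff.2 hc
    simp only [eval_mul, eval_C, eval_sub, eval_X, mem_closedBall_zero_iff, norm_mul, norm_inv]
    rw [inv_mul_le_iff₀ this]; linarith

theorem Sec.mono {W W' : Set ℂ} {G : ℕ → ℂ → ℂ} (h : Sec n W' G) (hW : W ⊆ W') : Sec n W G :=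
  ⟨fun j hj => (h.cont j hj).mono (closure_mono hW), fun j hj z hz => h.der j hj z (hW hz),
    fun j hj z hz => h.bdd j hj z (closure_mono hW hz)⟩

theorem norm_le_one {W : Set ℂ} (hW : W0 ⊆ W) {p v : ℂ} (h : p ≠ v)
    (h1 : segment ℝ p v ∩ closure W ⊆ {p}) : ‖p‖ ≤ 1 ∧ ‖v‖ ≤ 1 := by
  have : segment ℝ p v ⊆ Metric.closedBall 0 1 := by
    rw [← closure_openSegment]
    refine closure_minimal (fun z hz => ?_) Metric.isClosed_closedBall
    rw [mem_closedBall_zero_iff]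
    refine (Complex.norm_le_abs_re_add_abs_im z).trans (not_lt.1 fun hc => ?_)
    have : z = p := h1 ⟨openSegment_subset_segment _ _ _ hz, subset_closure (hW hc)⟩
    have h2 := ((mem_oseg h).1 hz).2.1
    rw [this, co_left] at h2; simp at h2
  exact ⟨by simpa using this (left_mem_segment _ _ _), by simpa using this (right_mem_segment _ _ _)⟩

theorem tay_self (hn : 1 ≤ n) (G : ℕ → ℂ → ℂ) (b : ℂ) : tay n G b b = G 0 b := by
  unfold tay
  rw [Finset.sum_eq_single 0 (fun j _ hj => by simp [hj]) (fun h => by simp at h; omega)]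
  simp

theorem tay_sub (hn : 1 ≤ n) {G : ℕ → ℂ → ℂ} {a b : ℂ} {d : ℝ} (h : ∀ j ≤ n, ‖G j a‖ ≤ 1)
    (hd : ‖b - a‖ ≤ d) (h1 : d ≤ 1) : ‖tay n G a b - G 0 a‖ ≤ n * d := by
  obtain ⟨m, rfl⟩ : ∃ m, n = m + 1 := ⟨n - 1, by omega⟩
  have h0 : 0 ≤ d := (norm_nonneg _).trans hd
  unfold tay
  rw [Finset.sum_range_succ']
  simp only [pow_zero, mul_one, Nat.factorial_zero, Nat.cast_one, div_one, add_sub_cancel_right]
  refine (norm_sum_le_of_le (n := fun _ => d) _ fun j hj => ?_).trans (by simp; nlinarith)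
  rw [norm_div, norm_mul, norm_pow, Complex.norm_natCast]
  have : (1 : ℝ) ≤ (j + 1).factorial := by exact_mod_cast (j + 1).factorial_pos
  calc _ ≤ 1 * d ^ (j + 1) / 1 := by
        gcongr; exact h _ (by have := Finset.mem_range.1 hj; omega)
    _ ≤ d := by simpa using pow_le_of_le_one h0 h1 (by omega)

theorem seg_co (p v : ℂ) {a b z : ℂ} :
    (z ∈ segment ℝ a b → (co p v a).re < (co p v b).re →
      (co p v a).re ≤ (co p v z).re ∧ (co p v z).re ≤ (co p v b).re) ∧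
    (z ∈ openSegment ℝ a b → (co p v a).re < (co p v b).re →
      (co p v a).re < (co p v z).re ∧ (co p v z).re < (co p v b).re) := by
  have e : ∀ s : ℝ, (co p v (a + s • (b - a))).re =
      (co p v a).re + s * ((co p v b).re - (co p v a).re) := fun s => by
    rw [show co p v (a + s • (b - a)) = co p v a + s * (co p v b - co p v a) by
      unfold co; rw [Complex.real_smul]; ring]
    simp
  rw [segment_eq_image', openSegment_eq_image']
  constructor <;> rintro ⟨s, ⟨s0, s1⟩, rfl⟩ h <;> simp only [e] <;> constructor <;> nlinarith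

/-- The vertices of the coil in the coordinate of the edge. -/
noncomputable def zig (s : ℝ) (H : ℕ) : ℕ → ℂ
  | 0 => 0
  | k + 1 => if k ≤ H then ⟨1 / 2 + s * (k / H), s * (-1) ^ k⟩ else (k - H : ℝ)

theorem zig_mono {s : ℝ} (hs : 0 < s) (h1 : s ≤ 1 / 4) {H : ℕ} (hH : 0 < H) :
    StrictMono fun k => (zig s H k).re := by
  have hH' : (0 : ℝ) < H := by exact_mod_cast hH
  refine strictMono_nat_of_lt_succ fun k => ?_
  rcases k with _ | k
  · simp [zig]
  · simp only [zig]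
    split_ifs with a b b
    · simp only [add_lt_add_iff_left]; gcongr; simp
    · obtain rfl : k = H := by omega
      simp [hH.ne']; linarith
    · omega
    · simp

theorem convex_lens (p v : ℂ) (t : ℝ) : Convex ℝ (lens p v t) := by
  have A := fun α β γ => (aff_co p v α β γ).convex
  convert ((A t (-1) 0).inter (A t 1 0)).inter ((A (-t) (-1) t).inter (A (-t) 1 t)) using 1
  ext z
  simp only [mem_lens, abs_lt, mem_inter_iff, mem_ofPred_eq]
  constructor <;> rintro ⟨⟨a, b⟩, c, d⟩ <;>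
    exact ⟨⟨by linarith, by linarith⟩, by linarith, by linarith⟩

theorem small (A : ℝ) {B : ℝ} (hB : 0 < B) : ∀ᶠ s : ℝ in 𝓝[>] 0, s * A ≤ B := by
  have hc : Continuous fun s : ℝ => s * A := by fun_prop
  exact (((hc.tendsto 0).eventually (gt_mem_nhds (show _ < B by simpa using hB))).filter_mono
    nhdsWithin_le_nhds).mono fun s hs => hs.le

theorem weak (hn : 1 ≤ n) : ∃ C > 0, ∀ (s : Core n) (F0 : ℕ → ℂ → ℂ) (κ δ : ℝ) (O : Set ℂ)
    (p v : ℂ) (Tp Tv : ℂ[X]), (∀ j, Continuous (F0 j)) → 0 < κ → 0 < δ →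
    (∀ j ≤ n, ∀ z, ‖s.F j z - F0 j z‖ ≤ κ) → IsClosed O → Tame O → p ≠ v →
    segment ℝ p v ∩ closure s.W ⊆ {p} → Disjoint (openSegment ℝ p v) O →
    (∀ j ≤ n, s.F j p = jet Tp j p ∧ s.F j v = jet Tv j v) →
    (∀ j ≤ n, ∀ z ∈ segment ℝ p v,
      ‖jet Tp j z - F0 j z‖ ≤ κ / 2 ∧ ‖jet Tv j z - F0 j z‖ ≤ κ / 2) →
    ∃ s', Ext F0 κ s s' O {p, v} ∧ (p ∈ closure s'.W ∧ v ∈ closure s'.W) ∧ ∀ G, Sec n s'.W G →
      ‖G 0 p - G 0 v‖ ≤ ‖p - v‖ + C * (‖(Tv - Tp).eval ((p + v) / 2)‖ + δ) / κ := by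
  obtain ⟨M, hM, hχ⟩ := hermite n
  refine ⟨12 * 3 ^ n * n.factorial * M + 1, by positivity,
    fun s F0 κ δ O p v Tp Tv hF hκ hδ hs hO hT h h1 h2 h3 h4 => ?_⟩
  set q := Tv - Tp with hq
  set m := (p + v) / 2 with hm
  set Q := ‖q.eval m‖ + δ with hQ
  have hQ0 : 0 < Q := by positivity
  have hu : 0 < ‖v - p‖ := norm_pos_iff.2 (sub_ne_zero.2 h.symm)
  obtain ⟨t1, p1, N, -, -, hNU, hNs⟩ := nbhd isClosed_closure s.tame h h1
  obtain ⟨t2, p2, hO2⟩ := hT p v h h2
  have hop : IsOpen (⋂ j ∈ Finset.range (n + 1), {z | ‖jet Tp j z - F0 j z‖ < 2 * κ / 3} ∩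
      {z | ‖jet Tv j z - F0 j z‖ < 2 * κ / 3}) := isOpen_biInter_finset fun j _ =>
    (isOpen_lt ((cont_jet Tp j).sub (hF j)).norm continuous_const).inter
      (isOpen_lt ((cont_jet Tv j).sub (hF j)).norm continuous_const)
  obtain ⟨t3, p3, h5⟩ := thin h hop fun z hz => mem_iInter₂.2 fun j hj => by
    have := h4 j (Nat.lt_succ_iff.1 (Finset.mem_range.1 hj)) z hz
    exact ⟨by simp only [mem_ofPred_eq]; linarith [this.1],
      by simp only [mem_ofPred_eq]; linarith [this.2]⟩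
  obtain ⟨t, ht, k2, k3, k4⟩ : ∃ t > 0, (∀ z ∈ clens p v t, z ∈ closure s.W → z = p) ∧
      (∀ z ∈ clens p v t, z ∈ O → z ∈ ({p, v} : Set ℂ)) ∧ ∀ j ≤ n, ∀ z ∈ clens p v t,
      ‖jet Tp j z - F0 j z‖ < 2 * κ / 3 ∧ ‖jet Tv j z - F0 j z‖ < 2 * κ / 3 := by
    have m0 : 0 < min t1 (min t2 t3) := by positivity
    refine ⟨_, m0, fun z hz hz' => ?_, fun z hz hz' =>
      hO2 ⟨clens_mono m0 ((min_le_right t1 _).trans (min_le_left t2 t3)) hz, hz'⟩,
      fun j hj z hz => mem_iInter₂.1 (h5 (clens_mono m0 ((min_le_right t1 _).trans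
        (min_le_right t2 t3)) hz)) j (Finset.mem_range.2 (Nat.lt_succ_iff.2 hj))⟩
    by_contra hc
    exact hNU (hNs z (clens_mono m0 (min_le_left _ _) hz) fun e => (hc e).elim) hz'
  obtain ⟨r, hr, hqr⟩ : ∃ r > 0, ∀ y, dist y m < r → ‖q.eval y‖ < Q :=
    Metric.eventually_nhds_iff.1 ((q.continuous.norm.tendsto m).eventually
      (gt_mem_nhds (by simp [hQ, hδ])))
  obtain ⟨σ, σ0, σ1, σ2, σ3, σ4, σ5⟩ : ∃ σ : ℝ, 0 < σ ∧ σ * 4 ≤ 1 ∧ σ * 4 ≤ t ∧
      σ * (3 * ‖v - p‖) ≤ 1 ∧ σ * (4 * ‖v - p‖) ≤ r ∧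
      σ * ((4 + 3 * n + 3 * 3 ^ n) * ‖v - p‖) ≤ δ / κ :=
    ((show ∀ᶠ σ : ℝ in 𝓝[>] 0, 0 < σ from self_mem_nhdsWithin).and ((small _ one_pos).and
      ((small _ ht).and ((small _ one_pos).and ((small _ hr).and
      (small _ (div_pos hδ hκ))))))).exists
  set ρ := σ * ‖v - p‖ with hρ
  have ρ0 : 0 < ρ := by positivity
  have ρ1 : 3 * ρ ≤ 1 := by linarith
  set H := ⌈4 * (n.factorial * (M * Q) / ρ ^ n) / κ⌉₊ with hH
  have H0 : 0 < H := Nat.ceil_pos.2 (by positivity)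
  have H0' : (0 : ℝ) < H := by exact_mod_cast H0
  have H1 : 4 * (n.factorial * (M * Q) / ρ ^ n) / κ ≤ H := Nat.le_ceil _
  have H2 : (H : ℝ) < 4 * (n.factorial * (M * Q) / ρ ^ n) / κ + 1 :=
    Nat.ceil_lt_add_one (by positivity)
  clear_value H
  let z : ℕ → ℂ := fun k => p + zig σ H k * (v - p)
  have cz : ∀ k, co p v (z k) = zig σ H k := fun k => co_mk h _
  have sm := zig_mono σ0 (by linarith) H0
  have z0 : z 0 = p := by simp [z, zig]
  have w1 : zig σ H (H + 2) = 1 := by simp [zig]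
  have z1 : z (H + 2) = v := by simp [z, w1]
  have wk : ∀ k ≤ H, zig σ H (k + 1) = ⟨1 / 2 + σ * (k / H), σ * (-1) ^ k⟩ := fun k hk => by
    simp [zig, hk]
  have fr : ∀ k ≤ H, (0 : ℝ) ≤ k / H ∧ (k / H : ℝ) ≤ 1 := fun k hk =>
    ⟨by positivity, by rw [div_le_one H0']; exact_mod_cast hk⟩
  have ab : ∀ k : ℕ, |σ * (-1) ^ k| = σ := fun k => by simp [abs_mul, abs_of_pos σ0]
  have zc : ∀ k ≤ H + 2, z k ∈ clens p v t := fun k hk => by
    rcases k with _ | k
    · rw [z0]; exact seg_sub_clens h ht (left_mem_segment _ _ _)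
    rcases Nat.lt_or_ge H k with a | a
    · obtain rfl : k = H + 1 := by omega
      rw [z1]; exact seg_sub_clens h ht (right_mem_segment _ _ _)
    · obtain ⟨f0, f1⟩ := fr k a
      rw [mem_clens, cz, wk k a]
      simp only [ab]
      have : σ * (k / H) ≤ 1 / 4 := by nlinarith
      constructor <;> nlinarith [mul_nonneg σ0.le f0]
  have cv : Convex ℝ (clens p v t) := closure_lens h ht ▸ (convex_lens p v t).closure
  have sc : ∀ k < H + 2, segment ℝ (z k) (z (k + 1)) ⊆ clens p v t := fun k hk =>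
    cv.segment_subset (zc k hk.le) (zc (k + 1) hk)
  have φm : ∀ k, (co p v (z k)).re < (co p v (z (k + 1))).re := fun k => by
    rw [cz, cz]; exact sm (Nat.lt_succ_self k)
  have zne : ∀ k, z k ≠ z (k + 1) := fun k e => (φm k).ne (by rw [← e])
  have zm : ∀ k ≤ H, ‖z (k + 1) - m‖ ≤ 2 * ρ := fun k hk => by
    have : z (k + 1) - m = (⟨σ * (k / H), σ * (-1) ^ k⟩ : ℂ) * (v - p) := by
      rw [show (⟨σ * (k / H), σ * (-1) ^ k⟩ : ℂ) = zig σ H (k + 1) - 1 / 2 by
        rw [wk k hk]; apply Complex.ext <;> simp]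
      simp only [z, hm]; ring
    rw [this, norm_mul, hρ, ← mul_assoc]
    gcongr
    refine (Complex.norm_le_abs_re_add_abs_im _).trans ?_
    obtain ⟨f0, f1⟩ := fr k hk
    simp only [ab]
    rw [abs_of_nonneg (by positivity)]; nlinarith
  have zd : ∀ i ≤ H, ∀ k ≤ H, ‖z (i + 1) - z (k + 1)‖ ≤ 3 * ρ := fun i hi k hk => by
    rw [show z (i + 1) - z (k + 1) = (zig σ H (i + 1) - zig σ H (k + 1)) * (v - p) by
      simp only [z]; ring, norm_mul, hρ, ← mul_assoc]
    gcongr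
    refine (Complex.norm_le_abs_re_add_abs_im _).trans ?_
    obtain ⟨f0, f1⟩ := fr k hk
    obtain ⟨f2, f3⟩ := fr i hi
    rw [wk i hi, wk k hk, Complex.sub_re, Complex.sub_im]
    have a1 := abs_sub (σ * (-1) ^ i) (σ * (-1) ^ k)
    rw [ab, ab] at a1
    have a2 : |1 / 2 + σ * (i / H) - (1 / 2 + σ * (k / H))| ≤ σ := by
      rw [abs_le]; constructor <;> nlinarith
    simp only; linarith
  have ze : ∀ k < H, 2 * ρ ≤ ‖z (k + 2) - z (k + 1)‖ := fun k hk => by
    rw [show z (k + 2) - z (k + 1) = (zig σ H (k + 2) - zig σ H (k + 1)) * (v - p) by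
      simp only [z]; ring, norm_mul, hρ, ← mul_assoc]
    gcongr
    refine le_trans ?_ (Complex.abs_im_le_norm _)
    rw [wk (k + 1) hk, wk k hk.le, Complex.sub_im]
    simp only
    rw [show σ * (-1) ^ (k + 1) - σ * (-1) ^ k = -2 * (σ * (-1) ^ k) by ring, abs_mul, ab]
    simp
  choose χ χ1 χ2 χ3 using fun k => hχ (z (k + 1)) (z (k + 2)) (zne (k + 1))
  let L : ℕ → ℂ[X] := fun k => match k with
    | 0 => Tp
    | k + 1 => if k < H then Tp + C ((k / H : ℝ) : ℂ) * q + C ((1 / H : ℝ) : ℂ) * (χ k * q) else Tv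
  let lam : ℂ → ℝ := fun y => max 0 (min 1 (((co p v y).re - 1 / 2) / σ))
  let J : ℕ → ℂ → ℂ := fun j y => jet (Tp + C (lam y : ℂ) * q) j y
  have l0 : lam (z 0) = 0 := by
    simp only [lam, cz, zig]
    refine max_eq_left (min_le_of_right_le (div_nonpos_of_nonpos_of_nonneg (by simp) σ0.le))
  have lk : ∀ k ≤ H, lam (z (k + 1)) = k / H := fun k hk => by
    obtain ⟨f0, f1⟩ := fr k hk
    simp only [lam, cz, wk k hk]
    rw [add_sub_cancel_left, mul_div_cancel_left₀ _ σ0.ne', min_eq_right f1, max_eq_right f0]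
  have l1 : lam (z (H + 2)) = 1 := by
    simp only [lam, cz, w1]
    rw [min_eq_left (by rw [le_div_iff₀ σ0]; simp; linarith), max_eq_right zero_le_one]
  have hTv : Tp + q = Tv := by simp [hq]
  have jets : ∀ k < H + 2, ∀ j ≤ n,
      J j (z k) = jet (L k) j (z k) ∧ J j (z (k + 1)) = jet (L k) j (z (k + 1)) := by
    intro k hk j hj
    rcases k with _ | k
    · simp only [J, L, l0, lk 0 H.zero_le]; simp
    by_cases a : k < H
    · simp only [J, L, if_pos a, lk k a.le, lk (k + 1) a, jet_add, jet_C_mul]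
      have b := jet_zero_of_dvd ((χ2 k).mul_right q) hj
      rw [sub_mul, jet_sub, one_mul, sub_eq_zero] at b
      rw [jet_zero_of_dvd ((χ1 k).mul_right q) hj, b]
      constructor <;> push_cast <;> ring
    · obtain rfl : k = H := by omega
      simp only [J, L, if_neg a, lk k le_rfl, l1, div_self H0'.ne']
      simp [hTv]
  have mix : ∀ l : ℝ, 0 ≤ l → l ≤ 1 → ∀ j ≤ n, ∀ y ∈ clens p v t,
      ‖jet (Tp + C (l : ℂ) * q) j y - F0 j y‖ ≤ 2 * κ / 3 := fun l a b j hj y hy => by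
    obtain ⟨c, d⟩ := k4 j hj y hy
    rw [show jet (Tp + C (l : ℂ) * q) j y - F0 j y = (1 - l : ℝ) * (jet Tp j y - F0 j y) +
      l * (jet Tv j y - F0 j y) by rw [jet_add, jet_C_mul, hq, jet_sub]; push_cast; ring]
    refine (norm_add_le _ _).trans ?_
    rw [norm_mul, norm_mul, Complex.norm_of_nonneg a, Complex.norm_of_nonneg (by linarith)]
    nlinarith
  have cls : ∀ k < H + 2, ∀ j ≤ n, ∀ y ∈ segment ℝ (z k) (z (k + 1)),
      ‖jet (L k) j y - F0 j y‖ < κ := by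
    intro k hk j hj y hy
    have hy' := sc k hk hy
    rcases k with _ | k
    · simp only [L]; linarith [(k4 j hj y hy').1]
    by_cases a : k < H
    swap
    · simp only [L, if_neg a]; linarith [(k4 j hj y hy').2]
    simp only [L, if_pos a]
    rw [jet_add, add_sub_right_comm, jet_C_mul]
    have b1 : ‖y - m‖ ≤ 2 * ρ := by
      simpa [dist_eq_norm] using (convex_closedBall m (2 * ρ)).segment_subset
        (mem_closedBall_iff_norm.2 (zm k a.le)) (mem_closedBall_iff_norm.2 (zm (k + 1) a)) hy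
    have b2 : ‖y - z (k + 1)‖ ≤ ‖z (k + 2) - z (k + 1)‖ := by
      simpa [dist_eq_norm] using (convex_closedBall (z (k + 1)) _).segment_subset
        (Metric.mem_closedBall_self (norm_nonneg _)) (mem_closedBall_iff_norm.2 le_rfl) hy
    have b3 : ‖jet (χ k * q) j y‖ ≤ n.factorial * (M * Q) / ρ ^ n :=
      jet_le ρ0 (by linarith) (fun w hw => by
        rw [mem_sphere_iff_norm] at hw
        rw [eval_mul, norm_mul]
        refine mul_le_mul (χ3 k w ?_) (hqr w ?_).le (norm_nonneg _) hM.le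
        · linarith [norm_sub_le_norm_sub_add_norm_sub w y (z (k + 1)), ze k a]
        · rw [dist_eq_norm]; linarith [norm_sub_le_norm_sub_add_norm_sub w y m]) (by positivity) hj
    have b4 : ‖((1 / H : ℝ) : ℂ) * jet (χ k * q) j y‖ ≤ κ / 4 := by
      rw [norm_mul, Complex.norm_of_nonneg (by positivity), one_div, inv_mul_le_iff₀ H0']
      rw [div_le_iff₀ hκ] at H1; linarith
    linarith [norm_add_le (jet (Tp + C ((k / H : ℝ) : ℂ) * q) j y - F0 j y)
      (((1 / H : ℝ) : ℂ) * jet (χ k * q) j y), mix _ (fr k a.le).1 (fr k a.le).2 j hj y hy']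
  have fB : (z '' Iic (H + 2)).Finite := (finite_Iic _).image z
  obtain ⟨s0, e0, e1, e2, e3⟩ := reglue (T := J) s hκ hF hs hO fB.isClosed
    (fun j _ => fB.continuousOn _) (by
      rintro j hj _ hy ⟨k, hk, rfl⟩
      have : z k = p ∨ z k = v := hy.elim (fun a => Or.inl (k2 _ (zc k hk) a)) (k3 _ (zc k hk))
      rcases this with a | a <;> rw [a]
      · rw [(h3 j hj).1, ← z0]; simp [J, l0]
      · rw [(h3 j hj).2, ← z1]; simp [J, l1, hTv]) (by
      rintro j hj _ ⟨k, hk, rfl⟩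
      exact (mix _ (le_max_left _ _) (max_le zero_le_one (min_le_left _ _)) j hj _
        (zc k hk)).trans (by linarith))
  have sw : ∀ k < H + 2, segment ℝ (z k) (z (k + 1)) ∩ closure s.W ⊆ {z k} := fun k hk y hy => by
    have a := k2 y (sc k hk hy.1) hy.2
    have b := ((seg_co p v).1 hy.1 (φm k)).1
    rw [a, co_left, cz] at b
    have : k = 0 := Nat.le_zero.1 (sm.le_iff_le.1 (by simpa [zig] using b))
    rw [a, this, z0]; rfl
  obtain ⟨s', x, res⟩ := forest (F0 := F0) (κ := κ) z (fun k => z (k + 1))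
    (fun y => (co p v y).re) J (fun k W => openSegment ℝ (z k) (z (k + 1)) ⊆ W)
    (fun _ _ _ a b => b.trans a) (Finset.range (H + 2))
    (fun k hk s O a b c d e f => att s hF hκ c a b (zne k) (T := L k) d e (fun j hj => by
      rw [(f j hj).1, (f j hj).2]; exact jets k (Finset.mem_range.1 hk) j hj)
      (cls k (Finset.mem_range.1 hk)))
    (fun k _ => φm k) (fun k _ i _ e => by
      have := congrArg (fun y => (co p v y).re) e
      simp only [cz] at this
      simpa using sm.injective this)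
    (fun k _ i _ e => disjoint_left.2 fun y a b => by
      obtain ⟨a1, a2⟩ := (seg_co p v).2 a (φm k)
      obtain ⟨b1, b2⟩ := (seg_co p v).1 b (φm i)
      rw [cz] at a1 a2 b1 b2
      have := sm.lt_iff_lt.1 (a1.trans_le b2)
      have := sm.lt_iff_lt.1 (b1.trans_lt a2)
      omega)
    s0 O hO hT e3 (fun k hk => e0 ▸ sw k (Finset.mem_range.1 hk))
    (fun k hk => disjoint_left.2 fun y a b => by
      have hk' := Finset.mem_range.1 hk
      obtain ⟨a1, a2⟩ := (seg_co p v).2 a (φm k)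
      rw [cz] at a1 a2
      rcases k3 y (sc k hk' (openSegment_subset_segment _ _ _ a)) b with c | c
      · rw [(c : y = p).trans z0.symm, cz] at a1; exact absurd (sm.lt_iff_lt.1 a1) (by omega)
      · rw [(c : y = v).trans z1.symm, cz] at a2; exact absurd (sm.lt_iff_lt.1 a2) (by omega))
    fun k hk j hj => ⟨e2 j hj _ ⟨k, (Finset.mem_range.1 hk).le, rfl⟩,
      e2 j hj _ ⟨k + 1, Finset.mem_range.1 hk, rfl⟩⟩
  have incl : ∀ k < H + 2, segment ℝ (z k) (z (k + 1)) ⊆ closure s'.W := fun k hk => by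
    rw [← closure_openSegment]; exact closure_mono (res k (Finset.mem_range.2 hk))
  refine ⟨s', ⟨e0 ▸ x.sub, fun j hj y hy => by rw [x.keep j hj y (e0 ▸ hy), e1 j hj y hy],
    x.close, fun y hy => ?_⟩, ⟨?_, ?_⟩, fun G hG => ?_⟩
  · rcases x.avoid hy with a | a
    · exact Or.inl (e0 ▸ a)
    refine Or.inr (k3 y ?_ hy.2)
    obtain ⟨k, hk, a | a⟩ := mem_iUnion₂.1 a <;> rw [a]
    exacts [zc k (Finset.mem_range.1 hk).le, zc (k + 1) (Finset.mem_range.1 hk)]
  · exact incl 0 (by omega) (by rw [z0]; exact left_mem_segment _ _ _)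
  · exact incl (H + 1) (by omega) (by rw [z1]; exact right_mem_segment _ _ _)
  have nb := fun k hk => norm_le_one s.base (zne k) (sw k hk)
  have tr := fun k hk => transport hn hG (res k (Finset.mem_range.2 hk))
    (by linarith [(nb k hk).1]) (by linarith [(nb k hk).2])
  have chain : ∀ k ≤ H, ‖tay n G (z 1) (z (H + 1)) - tay n G (z (k + 1)) (z (H + 1))‖ ≤
      k * (3 * ρ * (3 * ρ) ^ (n - 1)) := fun k hk => by
    induction k with
    | zero => simp
    | succ k ih =>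
      have a := (tr (k + 1) (by omega)).2 (z (H + 1)) (3 * ρ) (zd H le_rfl k (by omega))
        (zd H le_rfl (k + 1) hk)
      have b : ‖z (k + 1) - z (k + 1 + 1)‖ * (3 * ρ) ^ (n - 1) ≤ 3 * ρ * (3 * ρ) ^ (n - 1) := by
        gcongr; exact zd k (by omega) (k + 1) hk
      refine (norm_sub_le_norm_sub_add_norm_sub _ (tay n G (z (k + 1)) (z (H + 1))) _).trans ?_
      push_cast; linarith [ih (by omega)]
  have c1 := (tr 0 (by omega)).1
  have c2 := (tr (H + 1) (by omega)).1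
  have c3 := chain H le_rfl
  have c4 := tay_sub hn (G := G) (a := z 1) (fun j hj => hG.bdd j hj _
    (incl 0 (by omega) (right_mem_segment _ _ _)) (by linarith [(nb 0 (by omega)).2]))
    (zd H le_rfl 0 H.zero_le) ρ1
  rw [tay_self hn, ← pow_succ', Nat.sub_add_cancel hn, mul_pow] at c3
  rw [z0] at c1
  rw [z1] at c2
  have d1 : ‖p - m‖ = ‖p - v‖ / 2 := by
    rw [show p - m = (p - v) / 2 by rw [hm]; ring]; simp
  have d2 : ‖m - v‖ = ‖p - v‖ / 2 := by
    rw [show m - v = (p - v) / 2 by rw [hm]; ring]; simp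
  have d3 := norm_sub_le_norm_sub_add_norm_sub p m (z 1)
  have d4 := norm_sub_le_norm_sub_add_norm_sub (z (H + 1)) m v
  have d5 := zm 0 H.zero_le
  have d6 := zm H le_rfl
  rw [norm_sub_rev] at d5 c4
  have d7 : H * ρ ^ n ≤ 4 * n.factorial * M * Q / κ + ρ := by
    have : ρ ^ n ≤ ρ := pow_le_of_le_one ρ0.le (by linarith) (by omega)
    calc _ ≤ (4 * (n.factorial * (M * Q) / ρ ^ n) / κ + 1) * ρ ^ n := by gcongr
      _ = 4 * n.factorial * M * Q / κ + ρ ^ n := by field_simp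
      _ ≤ _ := by linarith
  have d8 : H * (3 ^ n * ρ ^ n) ≤ 3 ^ n * (4 * n.factorial * M * Q / κ + ρ) := by
    rw [mul_left_comm]; gcongr
  have d9 : δ / κ ≤ Q / κ := by gcongr; simp [hQ]
  have f1 := norm_sub_le_norm_sub_add_norm_sub (G 0 p) (G 0 (z 1)) (G 0 v)
  have f2 := norm_sub_le_norm_sub_add_norm_sub (G 0 (z 1)) (tay n G (z 1) (z (H + 1))) (G 0 v)
  have f3 := norm_sub_le_norm_sub_add_norm_sub (tay n G (z 1) (z (H + 1))) (G 0 (z (H + 1))) (G 0 v)
  have f4 : (12 * 3 ^ n * n.factorial * M + 1) * Q / κ =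
      3 * (3 ^ n * (4 * n.factorial * M * Q / κ)) + Q / κ := by ring
  have f5 : σ * ((4 + 3 * n + 3 * 3 ^ n) * ‖v - p‖) = 4 * ρ + n * (3 * ρ) + 3 * (3 ^ n * ρ) := by
    rw [hρ]; ring
  have f6 : 0 ≤ 3 ^ n * (4 * n.factorial * M * Q / κ) := by positivity
  have f7 : 0 ≤ 3 ^ n * ρ := by positivity
  rw [mul_add] at d8
  simp only [zero_add] at *
  linarith

end Pool.Agent.MP_d32a63_an.H95
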