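import Pool.Agent.MP_d32a63_an.H95.GenOut
import Pool.Agent.MP_d32a63_an.H95.GenPrep
import Pool.Agent.MP_d32a63_an.H95.Rows
import Pool.Agent.MP_d32a63_an.H23.Main
import Pool.Agent.MP_d32a63_an.H58.Adapt
import Pool.Agent.MP_d32a63_an.H9.Basic
import Pool.Agent.MP_d32a63_an.H4.RowA
import Pool.Agent.MP_d32a63_an.H4.Data
import Pool.Agent.MP_d32a63_an.H5.Node
import Pool.Agent.MP_d32a63_an.H3.Cfr
import Pool.Agent.MP_d32a63_an.H15.Link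
import Pool.Agent.MP_d32a63_an.H16.Limg
import Pool.Agent.MP_d32a63_an.H37.Ul
import Pool.Agent.MP_d32a63_an.H51.Limb
import Pool.Agent.MP_d32a63_an.H62.Obj
import Pool.Agent.MP_d32a63_an.H85.Top
import Pool.Agent.MP_d32a63_an.H96.Lima
import Pool.Agent.MP_d32a63_an.H97.La

/-! Assembly for all large orders. -/

open Pool.Agent.MP_d32a63_an.H58

namespace Pool.Agent.MP_d32a63_an.H95G

theorem all_of
    (hgrid : ∀ (n : ℕ) (C : ℝ), 1 ≤ n → 0 < C → H95.RealStmt n C → H23.GridStmt n C)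
    (hprep : ∀ (n r : ℕ) (c γ : ℝ) (ω : ℂ), 2 * r ≤ n → 2 ≤ r → 0 < c → c ≤ 1 / 10 → 0 < γ →
      ‖ω‖ = 1 → DATA r c γ ω → H95.PREPN n r) :
    ∃ n0 : ℕ, 1 ≤ n0 ∧ ∀ n, n0 ≤ n → Goal n := by
  have hB : BASIC := H9.basic
  obtain ⟨⟨α, CL, hα, hCL, hL1⟩, hL2, hL3⟩ := H15.link hB H15.tc
  obtain ⟨r0, hr0⟩ := exists_nat_ge (2 / α)
  set r := r0 + 2 with hr
  have hr2 : 2 ≤ r := by omega
  have hr1 : 1 ≤ r := by omega
  have hrα : 2 ≤ (r : ℝ) * α := by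
    have h0 : 2 ≤ (r0 : ℝ) * α := by rwa [div_le_iff₀ hα] at hr0
    have : (r : ℝ) = r0 + 2 := by rw [hr]; push_cast; ring
    rw [this]; nlinarith
  refine ⟨2 * r, by omega, fun n hn => ?_⟩
  have hn1 : 1 ≤ n := by omega
  obtain ⟨C1, hC1, hR⟩ := H95.rowREAL n hn1
  obtain ⟨Cg, hCg, hG⟩ : ∃ Cg > 0, GRID n Cg :=
    ⟨_, by positivity, grid_of hB hC1 (hgrid n C1 hn1 hC1 hR)⟩
  obtain ⟨c, γ, ω, hc, hc1, hγ, hω, hD⟩ := H4.data hB r hr1 (H4.roots hB r hr1)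
  have hH := H15.hull hB
  have hF : FIN n := out hB hH hL2 hL3 n r α CL _ hn hr2 hα hrα hCL (by positivity) hL1
    (H5.node hB H4.rowDiv.1 H4.rowDiv.2 r hr1) (H3.cfr hB hH r hr2) (H95.gridN hB hn hCg hG)
    (hprep n r c γ ω hn hr2 hc hc1 hγ hω hD)
  obtain ⟨hV, hA1, hA2⟩ := H97.la hB
  obtain ⟨hU, hP, hCl⟩ := H37.ul
  have hL : LIM n := H16.lim (H96.lima hB hA1 hA2 hU hP) (H16.limg hB hU) (H51.limb hB hV hA1) hCl
    (H37.glue hP) n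
  exact H85.top n hn1 (H95.rowINIT n) (step_of hB hn1 hF hL)

theorem all : ∃ n0 : ℕ, 1 ≤ n0 ∧ ∀ n, n0 ≤ n → Goal n :=
  all_of (fun _ _ hn hC hR => H23.grid hn hC hR) fun n r c γ ω =>
    H95.prepN H9.basic H9.mod (H62.obj H9.basic) n r c γ ω

end Pool.Agent.MP_d32a63_an.H95G
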