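import Pool.Agent.MP_d32a63_an.H95.GenSpec
import Pool.Agent.MP_d32a63_an.H41.Out

/-! Preparation for all orders, part A: the polynomials of one cell. -/

open Set Filter Topology Metric Polynomial
open Complex (I)
open Pool.Agent.MP_d32a63_an.H58

namespace Pool.Agent.MP_d32a63_an.H95

noncomputable section

theorem norm_ri (a b : ℝ) : ‖(a : ℂ) + (b : ℂ) * I‖ ≤ |a| + |b| := by
  refine (norm_add_le _ _).trans ?_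
  rw [norm_mul, Complex.norm_I, mul_one, Complex.norm_real, Complex.norm_real, Real.norm_eq_abs,
    Real.norm_eq_abs]

theorem vtx_near {ℓ : ℝ} (h : 0 ≤ ℓ) (Q v : ℤ × ℤ) (h1 : v.1 = Q.1 - 1 ∨ v.1 = Q.1 ∨ v.1 = Q.1 + 1)
    (h2 : v.2 = Q.2 ∨ v.2 = Q.2 + 1) : ‖vtx ℓ v - cen ℓ Q‖ ≤ 2 * ℓ := by
  have e : vtx ℓ v - cen ℓ Q = ((((v.1 : ℝ) - Q.1) * ℓ : ℝ) : ℂ) +
      ((((v.2 : ℝ) - Q.2 - 1 / 2) * ℓ : ℝ) : ℂ) * I := by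
    unfold vtx cen; push_cast; ring
  rw [e]
  refine (norm_ri _ _).trans ?_
  rw [abs_mul, abs_mul, abs_of_nonneg h]
  have a1 : |(v.1 : ℝ) - Q.1| ≤ 1 := by
    rcases h1 with h1 | h1 | h1 <;> rw [h1] <;> push_cast <;> rw [abs_le] <;> constructor <;>
      linarith
  have a2 : |(v.2 : ℝ) - Q.2 - 1 / 2| ≤ 1 := by
    rcases h2 with h2 | h2 <;> rw [h2] <;> push_cast <;> rw [abs_le] <;> constructor <;> linarith
  nlinarith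

theorem v0_near {ℓ : ℝ} (h : 0 ≤ ℓ) (Q : ℤ × ℤ) : ‖vtx ℓ (V0 Q) - cen ℓ Q‖ ≤ 2 * ℓ :=
  vtx_near h Q _ (Or.inl rfl) (by unfold V0; split_ifs <;> simp)

theorem v1_near {ℓ : ℝ} (h : 0 ≤ ℓ) (Q : ℤ × ℤ) : ‖vtx ℓ (V1 Q) - cen ℓ Q‖ ≤ 2 * ℓ :=
  vtx_near h Q _ (Or.inr (Or.inr rfl)) (by unfold V1; split_ifs <;> simp)

theorem v2_near {ℓ : ℝ} (h : 0 ≤ ℓ) (Q : ℤ × ℤ) : ‖vtx ℓ (V2 Q) - cen ℓ Q‖ ≤ 2 * ℓ :=
  vtx_near h Q _ (Or.inr (Or.inl rfl)) (by unfold V2; split_ifs <;> simp)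

/-- The scale `ℓ` is fine for the field `F` with error `g`. -/
structure Fine (n r : ℕ) (F : ℕ → ℂ → ℂ) (M g τ ℓ : ℝ) : Prop where
  rn : 2 * r ≤ n
  l0 : 0 < ℓ
  l1 : ℓ ≤ 1 / 10
  t0 : 0 < τ
  t1 : τ ≤ 1
  M0 : 0 < M
  bd : ∀ j ≤ n, ∀ z : ℂ, ‖z‖ ≤ 3 → ‖F j z‖ ≤ M
  mo : ∀ y z : ℂ, ‖y‖ ≤ 2 → ‖z - y‖ ≤ 5 * ℓ → ∀ j ≤ n,
    ‖jet (H58.tay (n + 1) F y) j z - F j z‖ ≤ g ∧ ‖F j z - F j y‖ ≤ g
  k3 : (n + 1) * M * 5 ^ (2 * r + 1) * ℓ ≤ g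

section vertex

variable {n r : ℕ} {F : ℕ → ℂ → ℂ} {M g τ ℓ : ℝ} {x : ℂ} {v : ℤ × ℤ}

theorem Fine.vn (h : Fine n r F M g τ ℓ) (hx : ‖x‖ ≤ 1) (hv : ‖vtx ℓ v - x‖ ≤ 2 * ℓ) :
    ‖vtx ℓ v‖ ≤ 2 := by
  have h1 := norm_add_le (vtx ℓ v - x) x
  rw [sub_add_cancel] at h1
  linarith [h.l1]

theorem vz (hv : ‖vtx ℓ v - x‖ ≤ 2 * ℓ) {z : ℂ} {R : ℝ} (hz : ‖z - x‖ ≤ R) :
    ‖z - vtx ℓ v‖ ≤ R + 2 * ℓ := by
  have h1 := norm_sub_le (z - x) (vtx ℓ v - x)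
  rw [sub_sub_sub_cancel_right] at h1
  linarith

theorem Fine.col (hB : BASIC) (h : Fine n r F M g τ ℓ) (p : ℤ) : ‖(τ : ℂ) * acol p‖ ≤ 2 * τ := by
  rw [norm_mul, Complex.norm_real, Real.norm_eq_abs, abs_of_pos h.t0]
  nlinarith [hB.ac2 p, h.t0]

theorem Fine.a0 (hB : BASIC) (h : Fine n r F M g τ ℓ) (hx : ‖x‖ ≤ 1) (hv : ‖vtx ℓ v - x‖ ≤ 2 * ℓ)
    {z : ℂ} (hz : ‖z - x‖ ≤ 3 * ℓ) :
    ‖(EV n F τ ℓ v).eval z - (F 0 z + τ * acol v.1)‖ ≤ g := by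
  have h1 := (h.mo _ z (h.vn hx hv) ((vz hv hz).trans (by linarith)) 0 (Nat.zero_le _)).1
  rw [hB.j0] at h1
  unfold EV
  rw [eval_add, eval_C, add_sub_add_right_eq_sub]
  exact h1

theorem Fine.aj (hB : BASIC) (h : Fine n r F M g τ ℓ) (hx : ‖x‖ ≤ 1) (hv : ‖vtx ℓ v - x‖ ≤ 2 * ℓ)
    {z : ℂ} (hz : ‖z - x‖ ≤ 3 * ℓ) {j : ℕ} (hj : j ≤ n) :
    ‖jet (EV n F τ ℓ v) j z - F j z‖ ≤ g + 2 * τ := by
  have h1 := (h.mo _ z (h.vn hx hv) ((vz hv hz).trans (by linarith)) j hj).1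
  have h2 : ‖jet (C ((τ : ℂ) * acol v.1)) j z‖ ≤ 2 * τ := by
    cases j with
    | zero => rw [hB.j0, eval_C]; exact h.col hB _
    | succ j => rw [hB.jC, norm_zero]; linarith [h.t0]
  unfold EV
  rw [hB.jadd, add_sub_right_comm]
  exact (norm_add_le _ _).trans (add_le_add h1 h2)

theorem Fine.tl (hB : BASIC) (h : Fine n r F M g τ ℓ) (hx : ‖x‖ ≤ 1) (hv : ‖vtx ℓ v - x‖ ≤ 2 * ℓ)
    {z : ℂ} (hz : ‖z - x‖ ≤ 3 * ℓ) :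
    ‖(EV n F τ ℓ v).eval z - (EV (2 * r) F τ ℓ v).eval z‖ ≤
      (n + 1) * M * 5 ^ (2 * r + 1) * ℓ ^ (2 * r + 1) := by
  have h1 := tay_tail hB (n := n + 1) (m := 2 * r + 1) (by linarith [h.rn]) F (vtx ℓ v) z
    (M := M) (t := 5 * ℓ) h.M0.le
    (fun j hj => h.bd j (by omega) _ ((h.vn hx hv).trans (by norm_num)))
    ((vz hv hz).trans (by linarith)) (by linarith [h.l1])
  unfold EV
  rw [eval_add, eval_add, add_sub_add_right_eq_sub]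
  refine h1.trans (le_of_eq ?_)
  rw [mul_pow]; push_cast; ring

theorem Fine.nr (hB : BASIC) (h : Fine n r F M g τ ℓ) (hx : ‖x‖ ≤ 1) (hv : ‖vtx ℓ v - x‖ ≤ 2 * ℓ)
    {z : ℂ} (hz : ‖z - x‖ ≤ 3 * ℓ) :
    ‖(EV (2 * r) F τ ℓ v).eval z - (F 0 x + τ * acol v.1)‖ ≤ 3 * g := by
  have h1 := h.a0 hB hx hv hz
  have h2 := h.tl hB hx hv hz
  have l0 := h.l0
  have l1 := h.l1
  have M0 := h.M0
  have h3 := (h.mo x z (by linarith) (by linarith) 0 (Nat.zero_le _)).2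
  have h4 : (n + 1) * M * 5 ^ (2 * r + 1) * ℓ ^ (2 * r + 1) ≤ (n + 1) * M * 5 ^ (2 * r + 1) * ℓ := by
    refine mul_le_mul_of_nonneg_left ?_ (by positivity)
    exact pow_le_of_le_one l0.le (by linarith) (by omega)
  have e : (EV (2 * r) F τ ℓ v).eval z - (F 0 x + τ * acol v.1) =
      ((EV n F τ ℓ v).eval z - (F 0 z + τ * acol v.1)) -
        ((EV n F τ ℓ v).eval z - (EV (2 * r) F τ ℓ v).eval z) + (F 0 z - F 0 x) := by ring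
  rw [e]
  refine (norm_add_le _ _).trans ?_
  have := norm_sub_le ((EV n F τ ℓ v).eval z - (F 0 z + τ * acol v.1))
    ((EV n F τ ℓ v).eval z - (EV (2 * r) F τ ℓ v).eval z)
  linarith [h.k3]

theorem Fine.bb (hB : BASIC) (h : Fine n r F M g τ ℓ) (hx : ‖x‖ ≤ 1) (hv : ‖vtx ℓ v - x‖ ≤ 2 * ℓ)
    {z : ℂ} (hz : ‖z - x‖ ≤ 2) : ‖(EV (2 * r) F τ ℓ v).eval z‖ ≤ 21 * M + 2 := by
  have h1 := hB.bd (2 * r + 1) F (vtx ℓ v) M h.M0.le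
    (fun j hj => h.bd j (by linarith [h.rn]) _ ((h.vn hx hv).trans (by norm_num))) 0 z
    ((vz hv hz).trans (by linarith [h.l1]))
  rw [hB.j0] at h1
  unfold EV
  rw [eval_add, eval_C]
  refine (norm_add_le _ _).trans ?_
  linarith [h.col hB v.1, h.t1]

theorem ev_deg (hB : BASIC) (m : ℕ) (F : ℕ → ℂ → ℂ) (τ ℓ : ℝ) (v : ℤ × ℤ) :
    (EV m F τ ℓ v).natDegree ≤ m := by
  unfold EV
  rw [natDegree_add_C]
  exact hB.ndeg _ _ _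

end vertex

theorem Fine.cd (hB : BASIC) {n r N : ℕ} {F : ℕ → ℂ → ℂ} {M g τ ℓ ε γ : ℝ} {ω : ℂ} {Q : ℤ × ℤ}
    (h : Fine n r F M g τ ℓ) (hx : ‖cen ℓ Q‖ ≤ 1) (e0 : 0 < ε) (e1 : ε ≤ 1) (om : ‖ω‖ = 1)
    (N0 : 0 < N) (sig : τ / N = ε * (ℓ / 8) ^ r) (hg : 3 * g ≤ γ * τ) :
    CD r N γ (21 * M + 2) τ ε ℓ ω (cen ℓ Q) (F 0 (cen ℓ Q)) Q.1 (EV (2 * r) F τ ℓ (V0 Q))
      (EV (2 * r) F τ ℓ (V1 Q)) (EV (2 * r) F τ ℓ (V2 Q)) := by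
  have l0 := h.l0.le
  refine ⟨h.l0, h.l1, h.t0, h.t1, e0, e1, om, N0, sig, ev_deg hB _ _ _ _ _, ev_deg hB _ _ _ _ _,
    ev_deg hB _ _ _ _ _, fun z hz => ?_, fun z hz => ?_⟩
  · have hz' := mem_closedBall_iff_norm.1 hz
    exact ⟨h.bb hB hx (v0_near l0 Q) hz', h.bb hB hx (v1_near l0 Q) hz',
      h.bb hB hx (v2_near l0 Q) hz'⟩
  · have hz' := mem_closedBall_iff_norm.1 hz
    exact ⟨(h.nr hB hx (v0_near l0 Q) hz').trans hg, (h.nr hB hx (v1_near l0 Q) hz').trans hg,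
      (h.nr hB hx (v2_near l0 Q) hz').trans hg⟩

theorem conv3 {N : ℕ} (N0 : 0 < N) {m : ℤ × ℤ} (hm : Nd N m) {a b c f : ℂ} {A : ℝ}
    (ha : ‖a - f‖ ≤ A) (hb : ‖b - f‖ ≤ A) (hc : ‖c - f‖ ≤ A) :
    ‖(N : ℂ)⁻¹ * (((N : ℂ) - m.1 - m.2) * a + (m.1 : ℂ) * b + (m.2 : ℂ) * c) - f‖ ≤ A := by
  obtain ⟨h1, h2, h3⟩ := hm
  have hN : (0 : ℝ) < N := by exact_mod_cast N0
  have hNc : (N : ℂ) ≠ 0 := by exact_mod_cast N0.ne'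
  have r1 : (0 : ℝ) ≤ m.1 := by exact_mod_cast h1
  have r2 : (0 : ℝ) ≤ m.2 := by exact_mod_cast h2
  have r3 : (m.1 : ℝ) + m.2 ≤ N := by exact_mod_cast h3
  have e : (N : ℂ)⁻¹ * (((N : ℂ) - m.1 - m.2) * a + (m.1 : ℂ) * b + (m.2 : ℂ) * c) - f =
      ((((N : ℝ) - m.1 - m.2) / N : ℝ) : ℂ) * (a - f) + (((m.1 : ℝ) / N : ℝ) : ℂ) * (b - f) +
        (((m.2 : ℝ) / N : ℝ) : ℂ) * (c - f) := by
    push_cast; field_simp; ring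
  rw [e]
  have k : ∀ (t : ℝ) (u : ℂ), 0 ≤ t → ‖u‖ ≤ A → ‖(t : ℂ) * u‖ ≤ t * A := fun t u ht hu => by
    rw [norm_mul, Complex.norm_real, Real.norm_eq_abs, abs_of_nonneg ht]
    exact mul_le_mul_of_nonneg_left hu ht
  have k1 := k (((N : ℝ) - m.1 - m.2) / N) _ (div_nonneg (by linarith) hN.le) ha
  have k2 := k ((m.1 : ℝ) / N) _ (div_nonneg r1 hN.le) hb
  have k3 := k ((m.2 : ℝ) / N) _ (div_nonneg r2 hN.le) hc
  refine (norm_add_le _ _).trans ((add_le_add ((norm_add_le _ _).trans (add_le_add k1 k2))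
    k3).trans (le_of_eq ?_))
  field_simp; ring

theorem ebar_jet (hB : BASIC) (N : ℕ) (E0 E1 E2 : ℂ[X]) (m : ℤ × ℤ) (j : ℕ) (z : ℂ) :
    jet (ebar N E0 E1 E2 m) j z = (N : ℂ)⁻¹ * (((N : ℂ) - m.1 - m.2) * jet E0 j z +
      (m.1 : ℂ) * jet E1 j z + (m.2 : ℂ) * jet E2 j z) := by
  unfold ebar
  rw [hB.jmul, hB.jadd, hB.jadd, hB.jmul, hB.jmul, hB.jmul]

/-- The node polynomials of the cell `Q`. -/
def TN (n r N : ℕ) (F : ℕ → ℂ → ℂ) (τ ε ℓ : ℝ) (ω : ℂ) (Q m : ℤ × ℤ) : ℂ[X] :=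
  tnode N (EV n F τ ℓ (V0 Q)) (EV n F τ ℓ (V1 Q)) (EV n F τ ℓ (V2 Q)) ε (upol r ω (cen ℓ Q)) m

section cell

variable {n r N : ℕ} {F : ℕ → ℂ → ℂ} {M g τ ℓ ε : ℝ} {ω : ℂ} {Q : ℤ × ℤ}

theorem Fine.close (hB : BASIC) (h : Fine n r F M g τ ℓ) (hx : ‖cen ℓ Q‖ ≤ 1) (e0 : 0 < ε)
    (om : ‖ω‖ = 1) (N0 : 0 < N) {κ : ℝ} (hκ : g + 2 * τ + 2 * (ε * r.factorial) ≤ κ / 2)
    {m : ℤ × ℤ} (hm : Nd N m) : Close n F κ (TN n r N F τ ε ℓ ω Q m) (ball (cen ℓ Q) (2 * ℓ)) := by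
  intro j hj z hz
  have l0 := h.l0
  have l1 := h.l1
  have hz1 := (mem_ball_iff_norm.1 hz).le
  have hz2 : ‖z - cen ℓ Q‖ ≤ 3 * ℓ := by linarith
  have h1 := conv3 N0 hm (h.aj hB hx (v0_near l0.le Q) hz2 hj) (h.aj hB hx (v1_near l0.le Q) hz2 hj)
    (h.aj hB hx (v2_near l0.le Q) hz2 hj)
  have h2 := hB.up r ω (cen ℓ Q) j z om (by linarith)
  have h3 : ‖((((m.1 - m.2) % 3 : ℤ)) : ℂ)‖ ≤ 2 := by
    have a1 : 0 ≤ (m.1 - m.2) % 3 := by omega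
    have a2 : (m.1 - m.2) % 3 ≤ 2 := by omega
    rw [Complex.norm_intCast, abs_of_nonneg (by exact_mod_cast a1)]
    exact_mod_cast a2
  unfold TN tnode
  rw [hB.jadd, hB.jmul, ebar_jet hB, add_sub_right_comm]
  refine (norm_add_le _ _).trans ((add_le_add h1 ?_).trans hκ)
  rw [norm_mul, norm_mul, Complex.norm_real, Real.norm_eq_abs, abs_of_pos e0]
  calc ε * ‖((((m.1 - m.2) % 3 : ℤ)) : ℂ)‖ * ‖jet (upol r ω (cen ℓ Q)) j z‖ ≤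
        ε * 2 * r.factorial := by gcongr
    _ = 2 * (ε * r.factorial) := by ring

theorem TN_shv {i j x : ℤ} (hij : (i + j) % 2 = 0) (hx : Sh N x) :
    TN n r N F τ ε ℓ ω (i, j) (x, 0) = TN n r N F τ ε ℓ ω (i, j + 1) (x, 0) := by
  have h1 : (x - 0) % 3 = 0 := by have := hx.2.2; omega
  unfold TN tnode ebar
  rw [H41.V0_up hij, H41.V1_up hij]
  simp only [h1, Int.cast_zero, mul_zero, C_0, zero_mul, add_zero]

theorem TN_shh (h6 : 6 ∣ N) {k j x : ℤ} (hx : Sh N x) :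
    TN n r N F τ ε ℓ ω (k - 1, j) (x, N - x) = TN n r N F τ ε ℓ ω (k, j) (0, x) := by
  obtain ⟨P, hP⟩ := h6
  have h1 : (x - (N - x)) % 3 = 0 := by have := hx.2.2; omega
  have h2 : (0 - x) % 3 = 0 := by have := hx.2.2; omega
  unfold TN tnode ebar
  rw [H41.V2_left, H41.V1_left]
  simp only [h1, h2, Int.cast_zero, mul_zero, C_0, zero_mul, add_zero, Int.cast_sub,
    Int.cast_natCast, sub_self, sub_zero, zero_add]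
  ring

theorem TN_mid {x : ℤ} (hx : x % 3 = 0) (N0 : 0 < N) (z : ℂ) :
    (TN n r N F τ ε ℓ ω Q (0, x)).eval z = (EV n F τ ℓ (V0 Q)).eval z +
      (x : ℂ) / N * ((EV n F τ ℓ (V2 Q)).eval z - (EV n F τ ℓ (V0 Q)).eval z) := by
  have h2 : (0 - x) % 3 = 0 := by omega
  have hNc : (N : ℂ) ≠ 0 := by exact_mod_cast N0.ne'
  unfold TN tnode
  simp only [h2, Int.cast_zero, mul_zero, C_0, zero_mul, add_zero]
  rw [H41.ebar_eval]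
  push_cast; field_simp; ring

theorem Fine.mid (hB : BASIC) (h : Fine n r F M g τ ℓ) {k j : ℤ} (hx : ‖cen ℓ (k, j)‖ ≤ 1)
    (hk : k % 3 = 0) (N0 : 0 < N) (hg : 2 * g ≤ τ) {xw : ℕ} (hxw : 2 * xw ≤ N) {x : ℤ}
    (h3 : x % 3 = 0) (hm : |2 * x - N| ≤ 2 * xw) {z : ℂ} (hz : ‖z - cen ℓ (k, j)‖ ≤ 3 * ℓ) :
    ‖F 0 z - (TN n r N F τ ε ℓ ω (k, j) (0, x)).eval z‖ ≤ g + 2 * τ * (xw / N) ∧
      ∀ x' : ℤ, x' % 3 = 0 →
        ‖(TN n r N F τ ε ℓ ω (k, j) (0, x') - TN n r N F τ ε ℓ ω (k, j) (0, x)).eval z‖ ≤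
          3 * τ / N * |((x' - x : ℤ) : ℝ)| := by
  have l0 := h.l0
  have t0 := h.t0
  have hN : (0 : ℝ) < N := by exact_mod_cast N0
  have hNc : (N : ℂ) ≠ 0 := by exact_mod_cast N0.ne'
  have b0 := h.a0 hB hx (v0_near l0.le _) hz
  have b2 := h.a0 hB hx (v2_near l0.le _) hz
  have c0 : acol (V0 (k, j)).1 = -1 := by
    have : (k - 1) % 3 = 2 := by omega
    simp [V0, acol, this]
  have c2 : acol (V2 (k, j)).1 = 1 := by simp [V2, acol, hk]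
  rw [c0] at b0
  rw [c2] at b2
  set A := (EV n F τ ℓ (V0 (k, j))).eval z
  set B := (EV n F τ ℓ (V2 (k, j))).eval z
  constructor
  · rw [TN_mid h3 N0]
    have hx0 : 0 ≤ x := by have := (abs_le.1 hm).1; omega
    have hx1 : x ≤ N := by have := (abs_le.1 hm).2; omega
    have h1 := conv3 N0 (m := (0, x)) ⟨le_rfl, hx0, by simpa using hx1⟩
      (a := A - (F 0 z + τ * -1)) (b := 0) (c := B - (F 0 z + τ * 1)) (f := 0) (A := g)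
      (by simpa using b0) (by simpa using (norm_nonneg _).trans b0) (by simpa using b2)
    have e : F 0 z - (A + (x : ℂ) / N * (B - A)) =
        -((N : ℂ)⁻¹ * (((N : ℂ) - ((0 : ℤ) : ℂ) - x) * (A - (F 0 z + τ * -1)) + ((0 : ℤ) : ℂ) * 0 +
          (x : ℂ) * (B - (F 0 z + τ * 1))) - 0) - ((τ * ((2 * x - N) / N) : ℝ) : ℂ) := by
      push_cast; field_simp; ring
    rw [e]
    refine (norm_sub_le _ _).trans ?_
    rw [norm_neg]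
    refine add_le_add h1 ?_
    rw [Complex.norm_real, Real.norm_eq_abs, abs_mul, abs_of_pos t0, abs_div, abs_of_pos hN]
    have h2 : |2 * (x : ℝ) - N| ≤ 2 * xw := by exact_mod_cast hm
    calc τ * (|2 * (x : ℝ) - N| / N) ≤ τ * (2 * xw / N) := by gcongr
      _ = 2 * τ * (xw / N) := by ring
  · intro x' h3'
    rw [eval_sub, TN_mid h3 N0, TN_mid h3' N0]
    have e : A + (x' : ℂ) / N * (B - A) - (A + (x : ℂ) / N * (B - A)) =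
        ((((x' - x : ℤ) : ℝ) / N : ℝ) : ℂ) * (B - A) := by
      push_cast; ring
    have h1 : ‖B - A‖ ≤ 3 * τ := by
      have e2 : B - A = (B - (F 0 z + τ * 1)) - (A - (F 0 z + τ * -1)) + ((2 * τ : ℝ) : ℂ) := by
        push_cast; ring
      rw [e2]
      refine (norm_add_le _ _).trans ?_
      rw [Complex.norm_real, Real.norm_eq_abs, abs_of_pos (by linarith)]
      linarith [norm_sub_le (B - (F 0 z + τ * 1)) (A - (F 0 z + τ * -1))]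
    rw [e, norm_mul, Complex.norm_real, Real.norm_eq_abs, abs_div, abs_of_pos hN]
    calc |((x' - x : ℤ) : ℝ)| / N * ‖B - A‖ ≤ |((x' - x : ℤ) : ℝ)| / N * (3 * τ) := by gcongr
      _ = 3 * τ / N * |((x' - x : ℤ) : ℝ)| := by ring

theorem Fine.lk (hB : BASIC) (h : Fine n r F M g τ ℓ) (hx : ‖cen ℓ Q‖ ≤ 1) (N0 : 0 < N)
    {m m' : ℤ × ℤ} (hnb : H58.Nb m m') {z : ℂ} (hz : ‖z - cen ℓ Q‖ ≤ 3 * ℓ) {B : ℝ}
    (hb : ‖(TN (2 * r) r N F τ ε ℓ ω Q m' - TN (2 * r) r N F τ ε ℓ ω Q m).eval z‖ ≤ B) :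
    ‖(TN n r N F τ ε ℓ ω Q m' - TN n r N F τ ε ℓ ω Q m).eval z‖ ≤
      B + 2 * ((n + 1) * M * 5 ^ (2 * r + 1) * ℓ ^ (2 * r + 1)) := by
  have l0 := h.l0
  have hN : (1 : ℝ) ≤ N := by exact_mod_cast N0
  have hNc : (N : ℂ) ≠ 0 := by exact_mod_cast N0.ne'
  have b0 := h.tl hB hx (v0_near l0.le Q) hz
  have b1 := h.tl hB hx (v1_near l0.le Q) hz
  have b2 := h.tl hB hx (v2_near l0.le Q) hz
  set t := (n + 1) * M * 5 ^ (2 * r + 1) * ℓ ^ (2 * r + 1)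
  have k : ∀ p q : ℂ, ‖p‖ ≤ t → ‖q‖ ≤ t → ‖(N : ℂ)⁻¹ * (p - q)‖ ≤ 2 * t := fun p q hp hq => by
    rw [norm_mul, norm_inv, Complex.norm_natCast]
    have h1 : (N : ℝ)⁻¹ ≤ 1 := inv_le_one_of_one_le₀ hN
    have h2 := norm_sub_le p q
    calc (N : ℝ)⁻¹ * ‖p - q‖ ≤ 1 * ‖p - q‖ := by gcongr
      _ ≤ 2 * t := by linarith
  have fin : ∀ u : ℂ, ‖u‖ ≤ 2 * t →
      (TN n r N F τ ε ℓ ω Q m' - TN n r N F τ ε ℓ ω Q m).eval z =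
        (TN (2 * r) r N F τ ε ℓ ω Q m' - TN (2 * r) r N F τ ε ℓ ω Q m).eval z + u →
      ‖(TN n r N F τ ε ℓ ω Q m' - TN n r N F τ ε ℓ ω Q m).eval z‖ ≤ B + 2 * t := fun u hu e => by
    rw [e]; exact (norm_add_le _ _).trans (add_le_add hb hu)
  rcases hnb with rfl | rfl | rfl
  · refine fin _ (k _ _ b1 b0) ?_
    simp only [TN, tnode, eval_sub, eval_add, H41.ebar_eval]
    push_cast; ring
  · refine fin _ (k _ _ b2 b0) ?_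
    simp only [TN, tnode, eval_sub, eval_add, H41.ebar_eval]
    push_cast; ring
  · refine fin _ (k _ _ b2 b1) ?_
    simp only [TN, tnode, eval_sub, eval_add, H41.ebar_eval]
    push_cast; ring

end cell

end

end Pool.Agent.MP_d32a63_an.H95
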