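import Pool.Agent.MP_d32a63_an.H95.Defs

/-! Elementary geometry of lenses and tame sets. -/

namespace Pool.Agent.MP_d32a63_an.H95

open Set Filter Topology

/-- The coordinate along the segment. -/
noncomputable def co (p v z : ℂ) : ℂ := (z - p) / (v - p)

theorem cont_co (p v : ℂ) : Continuous (co p v) := by unfold co; fun_prop

theorem co_inv {p v : ℂ} (h : p ≠ v) (z : ℂ) : z = p + co p v z * (v - p) := by
  have : v - p ≠ 0 := sub_ne_zero.2 h.symm
  unfold co; field_simp; ring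

theorem co_mk {p v : ℂ} (h : p ≠ v) (w : ℂ) : co p v (p + w * (v - p)) = w := by
  have : v - p ≠ 0 := sub_ne_zero.2 h.symm
  unfold co; field_simp; ring

theorem co_swap {p v : ℂ} (h : p ≠ v) (z : ℂ) : co v p z = 1 - co p v z := by
  have : v - p ≠ 0 := sub_ne_zero.2 h.symm
  have : p - v ≠ 0 := sub_ne_zero.2 h
  unfold co; field_simp; ring

theorem co_add (p v z u : ℂ) : co p v (z + u) = co p v z + u * (v - p)⁻¹ := by
  unfold co; ring

theorem co_left (p v : ℂ) : co p v p = 0 := by simp [co]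

theorem co_right {p v : ℂ} (h : p ≠ v) : co p v v = 1 := by
  have : v - p ≠ 0 := sub_ne_zero.2 h.symm
  simp [co, this]

theorem mem_lens {p v z : ℂ} {t : ℝ} : z ∈ lens p v t ↔
    |(co p v z).im| < t * (co p v z).re ∧ |(co p v z).im| < t * (1 - (co p v z).re) := Iff.rfl

theorem mem_clens {p v z : ℂ} {t : ℝ} : z ∈ clens p v t ↔
    |(co p v z).im| ≤ t * (co p v z).re ∧ |(co p v z).im| ≤ t * (1 - (co p v z).re) := Iff.rfl

theorem isOpen_lens (p v : ℂ) (t : ℝ) : IsOpen (lens p v t) := by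
  have := cont_co p v
  exact (isOpen_lt (f := fun z => |(co p v z).im|) (g := fun z => t * (co p v z).re)
    (by fun_prop) (by fun_prop)).inter
    (isOpen_lt (f := fun z => |(co p v z).im|) (g := fun z => t * (1 - (co p v z).re))
    (by fun_prop) (by fun_prop))

theorem isClosed_clens (p v : ℂ) (t : ℝ) : IsClosed (clens p v t) := by
  have := cont_co p v
  exact (isClosed_le (f := fun z => |(co p v z).im|) (g := fun z => t * (co p v z).re)
    (by fun_prop) (by fun_prop)).inter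
    (isClosed_le (f := fun z => |(co p v z).im|) (g := fun z => t * (1 - (co p v z).re))
    (by fun_prop) (by fun_prop))

theorem lens_sub (p v : ℂ) (t : ℝ) : lens p v t ⊆ clens p v t := fun _ h => ⟨h.1.le, h.2.le⟩

theorem clens_swap {p v : ℂ} (h : p ≠ v) (t : ℝ) : clens v p t = clens p v t := by
  ext z
  simp only [mem_clens, co_swap h z, Complex.sub_im, Complex.one_im, zero_sub, abs_neg,
    Complex.sub_re, Complex.one_re, sub_sub_cancel]
  exact and_comm

theorem clens_re {p v z : ℂ} {t : ℝ} (ht : 0 < t) (h : z ∈ clens p v t) :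
    0 ≤ (co p v z).re ∧ (co p v z).re ≤ 1 := by
  obtain ⟨h1, h2⟩ := mem_clens.1 h
  have := abs_nonneg (co p v z).im
  constructor
  · by_contra hc; push Not at hc; nlinarith
  · by_contra hc; push Not at hc; nlinarith

theorem clens_mono {p v : ℂ} {t t' : ℝ} (ht : 0 < t) (h : t ≤ t') :
    clens p v t ⊆ clens p v t' := by
  intro z hz
  obtain ⟨a, b⟩ := clens_re ht hz
  obtain ⟨h1, h2⟩ := mem_clens.1 hz
  exact mem_clens.2 ⟨by nlinarith, by nlinarith⟩

theorem mem_seg {p v z : ℂ} (h : p ≠ v) : z ∈ segment ℝ p v ↔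
    (co p v z).im = 0 ∧ 0 ≤ (co p v z).re ∧ (co p v z).re ≤ 1 := by
  rw [segment_eq_image']
  constructor
  · rintro ⟨s, hs, rfl⟩
    have : co p v (p + s • (v - p)) = s := by
      rw [Complex.real_smul]; exact co_mk h _
    simp only [this, Complex.ofReal_im, Complex.ofReal_re]
    exact ⟨trivial, hs.1, hs.2⟩
  · rintro ⟨h1, h2, h3⟩
    refine ⟨(co p v z).re, ⟨h2, h3⟩, ?_⟩
    have : ((co p v z).re : ℂ) = co p v z := Complex.ext (by simp) (by simp [h1])
    simp only [Complex.real_smul, this]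
    exact (co_inv h z).symm

theorem mem_oseg {p v z : ℂ} (h : p ≠ v) : z ∈ openSegment ℝ p v ↔
    (co p v z).im = 0 ∧ 0 < (co p v z).re ∧ (co p v z).re < 1 := by
  rw [openSegment_eq_image']
  constructor
  · rintro ⟨s, hs, rfl⟩
    have : co p v (p + s • (v - p)) = s := by
      rw [Complex.real_smul]; exact co_mk h _
    simp only [this, Complex.ofReal_im, Complex.ofReal_re]
    exact ⟨trivial, hs.1, hs.2⟩
  · rintro ⟨h1, h2, h3⟩
    refine ⟨(co p v z).re, ⟨h2, h3⟩, ?_⟩
    have : ((co p v z).re : ℂ) = co p v z := Complex.ext (by simp) (by simp [h1])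
    simp only [Complex.real_smul, this]
    exact (co_inv h z).symm

theorem seg_cases {p v z : ℂ} (h : z ∈ segment ℝ p v) :
    z = p ∨ z = v ∨ z ∈ openSegment ℝ p v := by
  rw [← insert_endpoints_openSegment] at h
  simpa using h

theorem oseg_sub_lens {p v : ℂ} (h : p ≠ v) {t : ℝ} (ht : 0 < t) :
    openSegment ℝ p v ⊆ lens p v t := by
  intro z hz
  obtain ⟨h1, h2, h3⟩ := (mem_oseg h).1 hz
  rw [mem_lens, h1, abs_zero]
  exact ⟨by positivity, mul_pos ht (by linarith)⟩

theorem seg_sub_clens {p v : ℂ} (h : p ≠ v) {t : ℝ} (ht : 0 < t) :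
    segment ℝ p v ⊆ clens p v t := by
  intro z hz
  obtain ⟨h1, h2, h3⟩ := (mem_seg h).1 hz
  rw [mem_clens, h1, abs_zero]
  exact ⟨by positivity, mul_nonneg ht.le (by linarith)⟩

theorem closure_lens {p v : ℂ} (h : p ≠ v) {t : ℝ} (ht : 0 < t) :
    closure (lens p v t) = clens p v t := by
  refine Subset.antisymm (closure_minimal (lens_sub p v t) (isClosed_clens p v t)) fun z hz => ?_
  obtain ⟨h1, h2⟩ := mem_clens.1 hz
  have hc : Continuous fun s : ℝ => p + ((1 - s) * co p v z + s / 2) * (v - p) := by fun_prop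
  have ht0 : Tendsto (fun s : ℝ => p + ((1 - s) * co p v z + s / 2) * (v - p)) (𝓝[>] 0) (𝓝 z) := by
    have := (hc.tendsto 0).mono_left (nhdsWithin_le_nhds (s := Ioi 0))
    simpa [← co_inv h z] using this
  refine mem_closure_of_tendsto ht0 ?_
  filter_upwards [Ioo_mem_nhdsGT (show (0 : ℝ) < 1 by norm_num)] with s hs
  rw [mem_lens, co_mk h]
  have e1 : ((1 - (s : ℂ)) * co p v z + s / 2).im = (1 - s) * (co p v z).im := by simp
  have e2 : ((1 - (s : ℂ)) * co p v z + s / 2).re = (1 - s) * (co p v z).re + s / 2 := by simp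
  have h3 : 0 < 1 - s := by linarith [hs.2]
  have h4 := mul_pos ht hs.1
  rw [e1, e2, abs_mul, abs_of_pos h3]
  constructor <;> nlinarith [mul_le_mul_of_nonneg_left h1 h3.le, mul_le_mul_of_nonneg_left h2 h3.le]

theorem thin {p v : ℂ} (h : p ≠ v) {U : Set ℂ} (hU : IsOpen U) (hs : segment ℝ p v ⊆ U) :
    ∃ t > 0, clens p v t ⊆ U := by
  have hk : IsCompact (segment ℝ p v) := by
    rw [segment_eq_image']; exact isCompact_Icc.image (by fun_prop)
  obtain ⟨ε, hε, hsub⟩ := hk.exists_thickening_subset_open hU hs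
  have hn : 0 < ‖v - p‖ := norm_pos_iff.2 (sub_ne_zero.2 h.symm)
  have ht : 0 < ε / (2 * ‖v - p‖) := by positivity
  refine ⟨_, ht, fun z hz => hsub ?_⟩
  obtain ⟨a, b⟩ := clens_re ht hz
  obtain ⟨h1, -⟩ := mem_clens.1 hz
  rw [Metric.mem_thickening_iff]
  refine ⟨p + (co p v z).re * (v - p), (mem_seg h).2 (by rw [co_mk h]; simp [a, b]), ?_⟩
  rw [dist_eq_norm]
  have e : z - (p + (co p v z).re * (v - p)) = (co p v z).im * Complex.I * (v - p) := by
    conv_lhs => rw [co_inv h z, co_mk h]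
    conv_lhs => enter [1]; rw [← Complex.re_add_im (co p v z)]
    ring
  rw [e, norm_mul, norm_mul, Complex.norm_I, mul_one, Complex.norm_real, Real.norm_eq_abs]
  have : |(co p v z).im| ≤ ε / (2 * ‖v - p‖) := h1.trans (by nlinarith)
  calc _ ≤ ε / (2 * ‖v - p‖) * ‖v - p‖ := by gcongr
    _ = ε / 2 := by field_simp
    _ < ε := by linarith

theorem Tame.union {A B : Set ℂ} (hA : Tame A) (hB : Tame B) : Tame (A ∪ B) := by
  intro p v h hd
  rw [disjoint_union_right] at hd
  obtain ⟨t, ht, h1⟩ := hA p v h hd.1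
  obtain ⟨t', ht', h2⟩ := hB p v h hd.2
  have hm : 0 < min t t' := lt_min ht ht'
  refine ⟨_, hm, fun z hz => ?_⟩
  rcases hz.2 with h3 | h3
  · exact h1 ⟨clens_mono hm (min_le_left _ _) hz.1, h3⟩
  · exact h2 ⟨clens_mono hm (min_le_right _ _) hz.1, h3⟩

theorem tame_empty : Tame ∅ := fun _ _ _ _ => ⟨1, one_pos, by simp⟩

theorem tame_biUnion {ι : Type*} (E : Finset ι) (A : ι → Set ℂ) (h : ∀ e ∈ E, Tame (A e)) :
    Tame (⋃ e ∈ E, A e) := by
  classical
  induction E using Finset.induction_on with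
  | empty => simpa using tame_empty
  | insert a s ha ih =>
    rw [Finset.set_biUnion_insert]
    exact (h a (by simp)).union (ih fun e he => h e (by simp [he]))

/-- A real affine function on the plane. -/
def Aff (f : ℂ → ℝ) : Prop := ∃ a : ℂ, ∀ z u, f (z + u) = f z + (a * u).re

theorem Aff.cont {f : ℂ → ℝ} (h : Aff f) : Continuous f := by
  obtain ⟨a, ha⟩ := h
  have : f = fun u => f 0 + (a * u).re := by ext u; simpa using ha 0 u
  rw [this]; fun_prop

theorem tip {ι : Type*} [Finite ι] (f : ι → ℂ → ℝ) (hf : ∀ i, Aff (f i)) {p v : ℂ} (h : p ≠ v)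
    (hp : ∀ i, f i p ≤ 0) (hd : Disjoint (openSegment ℝ p v) {z | ∀ i, f i z ≤ 0}) :
    ∃ t > 0, clens p v t ∩ {z | ∀ i, f i z ≤ 0} ⊆ {p} := by
  choose a ha using hf
  have key : ∃ i, f i p = 0 ∧ 0 < (a i * (v - p)).re := by
    by_contra hc
    push Not at hc
    have h1 : ∀ᶠ s : ℝ in 𝓝[>] 0, ∀ i, f i p + s * (a i * (v - p)).re ≤ 0 := by
      refine eventually_all.2 fun i => ?_
      rcases (hp i).eq_or_lt with h0 | h0
      · filter_upwards [self_mem_nhdsWithin] with s hs
        have := hc i h0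
        have hs' : 0 < s := hs
        nlinarith
      · have hc' : Continuous fun s : ℝ => f i p + s * (a i * (v - p)).re := by fun_prop
        have := (hc'.tendsto 0).eventually (gt_mem_nhds (show _ < (0 : ℝ) by simpa using h0))
        exact (this.filter_mono nhdsWithin_le_nhds).mono fun s hs => hs.le
    obtain ⟨s, hs1, hs2⟩ := (h1.and (Ioo_mem_nhdsGT (show (0 : ℝ) < 1 by norm_num))).exists
    refine disjoint_left.1 hd ((mem_oseg (z := p + (s : ℂ) * (v - p)) h).2 ?_) fun i => ?_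
    · rw [co_mk h]; simpa using hs2
    · rw [ha, mul_left_comm, Complex.re_ofReal_mul]; exact hs1 i
  obtain ⟨i, h0, h1⟩ := key
  set c := a i * (v - p) with hc
  have ht : 0 < c.re / (|c.im| + 1) := by positivity
  refine ⟨_, ht, fun z hz => ?_⟩
  obtain ⟨b, -⟩ := clens_re ht hz.1
  obtain ⟨h2, -⟩ := mem_clens.1 hz.1
  have h3 := hz.2 i
  rw [co_inv h z, ha, h0, mul_left_comm, ← hc, Complex.mul_re] at h3
  have h4 : (co p v z).im * c.im ≤ |(co p v z).im| * |c.im| := by
    rw [← abs_mul]; exact le_abs_self _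
  have h5 : c.re / (|c.im| + 1) * (|c.im| + 1) = c.re := by field_simp
  have h6 := mul_le_mul_of_nonneg_right h2 (abs_nonneg c.im)
  have h7 : (co p v z).re = 0 := by
    by_contra hne
    have := mul_pos ht (lt_of_le_of_ne b (Ne.symm hne))
    nlinarith
  have h8 : (co p v z).im = 0 := by
    rw [h7, mul_zero] at h2; exact abs_nonpos_iff.1 h2
  have : co p v z = 0 := Complex.ext h7 h8
  rw [co_inv h z, this]; simp

theorem tame_poly {ι : Type*} [Finite ι] (f : ι → ℂ → ℝ) (hf : ∀ i, Aff (f i)) :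
    Tame {z | ∀ i, f i z ≤ 0} := by
  intro p v h hd
  by_cases hp : ∀ i, f i p ≤ 0
  · obtain ⟨t, ht, h1⟩ := tip f hf h hp hd
    exact ⟨t, ht, h1.trans (by simp)⟩
  by_cases hv : ∀ i, f i v ≤ 0
  · obtain ⟨t, ht, h1⟩ := tip f hf h.symm hv (by rwa [openSegment_symm])
    rw [clens_swap h] at h1
    exact ⟨t, ht, h1.trans (by simp)⟩
  have hcl : IsClosed {z | ∀ i, f i z ≤ 0} := by
    rw [ofPred_forall]
    exact isClosed_iInter fun i => isClosed_le (hf i).cont continuous_const
  obtain ⟨t, ht, h1⟩ := thin h hcl.isOpen_compl (fun z hz => by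
    rcases seg_cases hz with rfl | rfl | h2
    · exact hp
    · exact hv
    · exact disjoint_left.1 hd h2)
  exact ⟨t, ht, fun z hz => (h1 hz.1 hz.2).elim⟩

theorem aff_co (p v : ℂ) (α β γ : ℝ) : Aff fun z => α * (co p v z).re + β * (co p v z).im + γ := by
  refine ⟨(α - β * Complex.I) * (v - p)⁻¹, fun z u => ?_⟩
  beta_reduce
  rw [co_add, mul_assoc, mul_comm (v - p)⁻¹ u]
  generalize u * (v - p)⁻¹ = w
  simp; ring

theorem tame_clens (p v : ℂ) (t : ℝ) : Tame (clens p v t) := by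
  have := tame_poly (ι := Fin 4) (fun i z => ![-t, -t, t, t] i * (co p v z).re +
    ![1, -1, 1, -1] i * (co p v z).im + ![0, 0, -t, -t] i) (fun i => aff_co p v _ _ _)
  convert this using 1
  ext z
  simp only [mem_clens, abs_le, mem_ofPred_eq, Fin.forall_fin_succ]
  simp
  constructor
  · rintro ⟨⟨a, b⟩, c, d⟩; refine ⟨?_, ?_, ?_, ?_⟩ <;> linarith
  · rintro ⟨a, b, c, d⟩; refine ⟨⟨?_, ?_⟩, ?_, ?_⟩ <;> linarith

theorem tame_seg {p v : ℂ} (h : p ≠ v) : Tame (segment ℝ p v) := by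
  have := tame_poly (ι := Fin 4) (fun i z => ![0, 0, 1, -1] i * (co p v z).re +
    ![1, -1, 0, 0] i * (co p v z).im + ![0, 0, -1, 0] i) (fun i => aff_co p v _ _ _)
  convert this using 1
  ext z
  simp only [mem_seg h, mem_ofPred_eq, Fin.forall_fin_succ]
  simp
  constructor
  · rintro ⟨a, b, c⟩; refine ⟨?_, ?_, ?_, ?_⟩ <;> linarith
  · rintro ⟨a, b, c, d⟩; refine ⟨?_, ?_, ?_⟩ <;> linarith

theorem isClosed_seg (p v : ℂ) : IsClosed (segment ℝ p v) := by
  rw [segment_eq_image']; exact (isCompact_Icc.image (by fun_prop)).isClosed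

end Pool.Agent.MP_d32a63_an.H95
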