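import Pool.Agent.MP_d32a63_an.H95.Coil

/-! Realisation of a finite forest, and the initial core. -/

namespace Pool.Agent.MP_d32a63_an.H95

open Set Filter Topology Polynomial

variable {n : ℕ}

theorem contOn_biUnion {ι : Type*} (E : Finset ι) (A : ι → Set ℂ) (hA : ∀ e, IsClosed (A e))
    {f : ℂ → ℂ} (h : ∀ e ∈ E, ContinuousOn f (A e)) : ContinuousOn f (⋃ e ∈ E, A e) := by
  classical
  induction E using Finset.induction_on with
  | empty => simp
  | insert a s ha ih =>
    rw [Finset.set_biUnion_insert]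
    exact (h a (by simp)).union_of_isClosed (ih fun e he => h e (by simp [he])) (hA a)
      (isClosed_biUnion_finset fun e _ => hA e)

theorem real (hn : 1 ≤ n) : ∃ C > 0, RealStmt n C := by
  classical
  obtain ⟨C, hC, hw⟩ := weak hn
  refine ⟨C, hC, fun s κ δ hκ hδ ι γ E Γ p v Tp Tv a b R J φ hφ hinj h1 hd g1 g2 g3 hJ j1 j2 c1
    c2 => ?_⟩
  have pv : ∀ e ∈ E, p e ≠ v e := fun e he h => (hφ e he).ne (by rw [h])
  set O := ⋃ g ∈ Γ, segment ℝ (a g) (b g) with hOdef
  set V := ⋃ e ∈ E, ({p e, v e} : Set ℂ) with hVdef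
  have hO : IsClosed O := isClosed_biUnion_finset fun g _ => isClosed_seg _ _
  have hV : V.Finite := E.finite_toSet.biUnion fun e _ => toFinite _
  have Vs : ∀ z ∈ V, ∃ e ∈ E, z ∈ segment ℝ (p e) (v e) ∧ (z = p e ∨ z = v e) := fun z hz => by
    obtain ⟨e, he, h⟩ := mem_iUnion₂.1 hz
    refine ⟨e, he, ?_, h⟩
    rcases h with rfl | rfl
    exacts [left_mem_segment _ _ _, right_mem_segment _ _ _]
  have ends : ∀ g ∈ Γ, ∀ j ≤ n, ∀ z ∈ segment ℝ (a g) (b g), z ∉ openSegment ℝ (a g) (b g) →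
      jet (R g) j z = J j z := fun g hg j hj z hz hz' => by
    rcases seg_cases hz with rfl | rfl | h
    exacts [(j2 g hg j hj).1, (j2 g hg j hj).2, (hz' h).elim]
  let T : ℕ → ℂ → ℂ := fun j z =>
    if h : ∃ g ∈ Γ, z ∈ segment ℝ (a g) (b g) then jet (R h.choose) j z else J j z
  have T1 : ∀ j ≤ n, ∀ z, (∀ g ∈ Γ, z ∉ openSegment ℝ (a g) (b g)) → T j z = J j z := by
    intro j hj z hz
    simp only [T]
    split_ifs with h
    · exact ends _ h.choose_spec.1 j hj z h.choose_spec.2 (hz _ h.choose_spec.1)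
    · rfl
  have T2 : ∀ g ∈ Γ, ∀ j ≤ n, ∀ z ∈ segment ℝ (a g) (b g), T j z = jet (R g) j z := by
    intro g hg j hj z hz
    have h : ∃ g ∈ Γ, z ∈ segment ℝ (a g) (b g) := ⟨g, hg, hz⟩
    obtain ⟨k1, k2⟩ := h.choose_spec
    simp only [T, dif_pos h]
    by_cases e : h.choose = g
    · rw [e]
    · rw [ends _ k1 j hj z k2 fun c => disjoint_left.1 (g2 _ k1 g hg e) c hz,
        ends g hg j hj z hz fun c => disjoint_left.1 (g2 g hg _ k1 (Ne.symm e)) c k2]
  have T3 : ∀ j ≤ n, ∀ z ∈ V, T j z = J j z := fun j hj z hz => T1 j hj z fun g hg c => by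
    obtain ⟨e, he, h, -⟩ := Vs z hz
    exact disjoint_left.1 (g3 e he g hg).2 c h
  obtain ⟨s0, e0, e1, e2, e3⟩ := reglue (T := T) (O := ∅) s hκ s.cont (by simp [hκ.le])
    isClosed_empty (hO.union hV.isClosed) (fun j hj => (contOn_biUnion Γ _
      (fun g => isClosed_seg _ _) fun g hg => (cont_jet (R g) j).continuousOn.congr
      (T2 g hg j hj)).union_of_isClosed (hV.continuousOn _) hO hV.isClosed)
    (fun j hj z hz _ => by
      rw [union_empty] at hz
      rw [T1 j hj z fun g hg c => disjoint_left.1 (g1 g hg).2 c hz, hJ j hj z hz])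
    (fun j hj z hz => by
      rcases hz with hz | hz
      · obtain ⟨g, hg, h⟩ := mem_iUnion₂.1 hz
        rw [T2 g hg j hj z h]; linarith [c2 g hg j hj z h]
      · obtain ⟨e, he, h, h'⟩ := Vs z hz
        rw [T3 j hj z hz]
        have := c1 e he j hj z h
        rcases h' with rfl | rfl
        · rw [← (j1 e he j hj).1]; linarith [this.1]
        · rw [← (j1 e he j hj).2]; linarith [this.2])
  obtain ⟨s', x, res⟩ := forest (F0 := s.F) (κ := κ) p v φ J
    (fun e W => (p e ∈ closure W ∧ v e ∈ closure W) ∧ ∀ G, Sec n W G →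
      ‖G 0 (p e) - G 0 (v e)‖ ≤
          ‖p e - v e‖ + C * (‖(Tv e - Tp e).eval ((p e + v e) / 2)‖ + δ) / κ ∧
        (Tp e = Tv e → ‖G 0 (p e) - G 0 (v e)‖ ≤ ‖p e - v e‖ ∧
          ∀ (z : ℂ) (d : ℝ), ‖z - p e‖ ≤ d → ‖z - v e‖ ≤ d →
            ‖tay n G (p e) z - tay n G (v e) z‖ ≤ ‖p e - v e‖ * d ^ (n - 1)))
    (fun e W W' h r => ⟨⟨closure_mono h r.1.1, closure_mono h r.1.2⟩,
      fun G hG => r.2 G (hG.mono h)⟩) E
    (fun e he s1 O1 a1 a2 a3 a4 a5 a6 => by
      have a7 : ∀ j ≤ n, s1.F j (p e) = jet (Tp e) j (p e) ∧ s1.F j (v e) = jet (Tv e) j (v e) :=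
        fun j hj => by rw [(a6 j hj).1, (a6 j hj).2, (j1 e he j hj).1, (j1 e he j hj).2]; simp
      by_cases h : Tp e = Tv e
      · obtain ⟨s2, x, r⟩ := att s1 s.cont hκ a3 a1 a2 (pv e he) (T := Tp e) a4 a5
          (fun j hj => ⟨(a7 j hj).1, h ▸ (a7 j hj).2⟩)
          fun j hj z hz => by linarith [(c1 e he j hj z hz).1]
        have i : segment ℝ (p e) (v e) ⊆ closure s2.W := by
          rw [← closure_openSegment]; exact closure_mono r
        obtain ⟨n1, n2⟩ := norm_le_one s1.base (pv e he) a4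
        refine ⟨s2, x, ⟨i (left_mem_segment _ _ _), i (right_mem_segment _ _ _)⟩, fun G hG => ?_⟩
        have := transport hn hG r (by linarith) (by linarith)
        exact ⟨this.1.trans (le_add_of_nonneg_right (by positivity)), fun _ => this⟩
      · obtain ⟨s2, x, r1, r2⟩ := hw s1 s.F κ δ O1 (p e) (v e) (Tp e) (Tv e) s.cont hκ hδ a3 a1 a2
          (pv e he) a4 a5 a7 (c1 e he)
        exact ⟨s2, x, r1, fun G hG => ⟨r2 G hG, fun c => (h c).elim⟩⟩)
    hφ hinj hd s0 O hO (tame_biUnion Γ _ fun g hg => tame_seg (g1 g hg).1) e3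
    (fun e he => e0 ▸ h1 e he)
    (fun e he => disjoint_iUnion₂_right.2 fun g hg => (g3 e he g hg).1) fun e he j hj => by
      have m1 : p e ∈ V := mem_iUnion₂.2 ⟨e, he, by simp⟩
      have m2 : v e ∈ V := mem_iUnion₂.2 ⟨e, he, by simp⟩
      rw [e2 j hj _ (Or.inr m1), e2 j hj _ (Or.inr m2), T3 j hj _ m1, T3 j hj _ m2]
      simp
  refine ⟨s', e0 ▸ x.sub, fun j hj z hz => ?_, x.close, fun e he => (res e he).1,
    fun g hg => ⟨disjoint_left.2 fun z hz hz' => ?_, fun j hj z hz => ?_⟩,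
    fun G hG e he => (res e he).2 G hG⟩
  · rw [x.keep j hj z (Or.inl (e0 ▸ hz)), e1 j hj z (Or.inl hz)]
  · rcases x.avoid ⟨hz', mem_iUnion₂.2 ⟨g, hg, openSegment_subset_segment _ _ _ hz⟩⟩ with h | h
    · exact disjoint_left.1 (g1 g hg).2 hz (e0 ▸ h)
    · obtain ⟨e, he, h, -⟩ := Vs z h
      exact disjoint_left.1 (g3 e he g hg).2 hz h
  · have m : z ∈ O := mem_iUnion₂.2 ⟨g, hg, hz⟩
    rw [x.keep j hj z (Or.inr m), e2 j hj z (Or.inl m), T2 g hg j hj z hz]

theorem isOpen_W0 : IsOpen W0 := isOpen_lt continuous_const (by fun_prop)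

theorem closure_W0 : closure W0 = {z | 1 ≤ |z.re| + |z.im|} := by
  refine Subset.antisymm (closure_minimal (fun z (hz : 1 < _) => (hz.le : 1 ≤ |z.re| + |z.im|))
    (isClosed_le continuous_const (by fun_prop))) fun z hz => ?_
  have hc : Continuous fun s : ℝ => ((1 + s : ℝ) : ℂ) * z := by fun_prop
  have ht : Tendsto (fun s : ℝ => ((1 + s : ℝ) : ℂ) * z) (𝓝[>] 0) (𝓝 z) := by
    simpa using (hc.tendsto 0).mono_left (nhdsWithin_le_nhds (s := Ioi 0))
  refine mem_closure_of_tendsto ht ?_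
  filter_upwards [self_mem_nhdsWithin] with s (hs : 0 < s)
  have hz' : 1 ≤ |z.re| + |z.im| := hz
  simp only [W0, mem_ofPred_eq, Complex.re_ofReal_mul, Complex.im_ofReal_mul, abs_mul,
    abs_of_pos (show 0 < 1 + s by linarith)]
  nlinarith

theorem aff0 (α β γ : ℝ) (z u : ℂ) : α * (z + u).re + β * (z + u).im + γ =
    α * z.re + β * z.im + γ + ((α - β * Complex.I) * u).re := by simp; ring

theorem init (n : ℕ) : ∃ s : Core n, s.W = W0 ∧ ∀ z ∈ W0, s.F 0 z = z⁻¹ := by
  let F : ℕ → ℂ → ℂ := fun j z => (-1) ^ j * j.factorial *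
    ((starRingEnd ℂ) z / (max (Complex.normSq z) (1 / 4) : ℝ)) ^ (j + 1)
  have eF : ∀ j, ∀ z ∈ W0, F j z = (-1) ^ j * j.factorial * z⁻¹ ^ (j + 1) := fun j z hz => by
    have hz' : 1 < |z.re| + |z.im| := hz
    have : 1 / 4 ≤ Complex.normSq z := by
      rw [Complex.normSq_apply, ← abs_mul_abs_self z.re, ← abs_mul_abs_self z.im]
      nlinarith [sq_nonneg (|z.re| - |z.im|)]
    simp only [F]
    rw [max_eq_left this, Complex.inv_def, div_eq_mul_inv, Complex.ofReal_inv]
  have half : ∀ α β : ℝ, Tame {z | α * z.re + β * z.im + 1 ≤ 0} := fun α β => by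
    simpa using tame_poly (ι := Unit) (fun _ z => α * z.re + β * z.im + 1)
      fun _ => ⟨_, aff0 α β 1⟩
  refine ⟨⟨W0, F, {1, -1, Complex.I, -Complex.I}, isOpen_W0, subset_rfl, fun j => ?_,
    der_congr isOpen_W0 (F := fun j z => (-1) ^ j * j.factorial * z⁻¹ ^ (j + 1))
      (fun j _ z hz => ?_) fun j _ => eF j, ?_, ?_, ⟨3 / 5, ?_, by simp⟩, ⟨-3 / 5, ?_, by simp⟩,
    toFinite _, fun y h1 h2 h3 => ?_⟩, rfl, fun z hz => by simpa using eF 0 z hz⟩
  · refine continuous_const.mul (Continuous.pow (Complex.continuous_conj.div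
      (Complex.continuous_ofReal.comp (Complex.continuous_normSq.max continuous_const))
      fun z => ?_) _)
    exact Complex.ofReal_ne_zero.2 (lt_max_of_lt_right (by norm_num)).ne'
  · have h0 : z ≠ 0 := by rintro rfl; simp [W0] at hz; linarith
    refine (((hasDerivAt_inv h0).pow (j + 1)).const_mul _).congr_deriv ?_
    simp [Nat.factorial_succ]; field_simp; ring
  · rw [closure_W0]
    convert ((half 1 1).union (half 1 (-1))).union ((half (-1) 1).union (half (-1) (-1))) using 1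
    ext z
    simp only [mem_ofPred_eq, mem_union]
    rcases abs_cases z.re with a | a <;> rcases abs_cases z.im with b | b <;>
      rw [a.1, b.1] <;> constructor <;> intro h <;> grind
  · have A := fun α β => Aff.convex (f := fun z => α * z.re + β * z.im + 1) ⟨_, aff0 α β 1⟩
    have := (((A 1 1).inter (A 1 (-1))).inter ((A (-1) 1).inter (A (-1) (-1)))).isPreconnected
    convert this using 1
    rw [closure_W0]
    ext z
    simp only [mem_ofPred_eq, mem_inter_iff, mem_compl_iff, not_le]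
    rcases abs_cases z.re with a | a <;> rcases abs_cases z.im with b | b <;>
      rw [a.1, b.1] <;> constructor <;> intro h <;> grind
  · rw [closure_W0]; norm_num
  · rw [closure_W0]; norm_num
  · rw [closure_W0] at h1
    have e : |y.re| + |y.im| = 1 := le_antisymm (not_lt.1 h2) h1
    simp only [mem_insert_iff, mem_singleton_iff, not_or, Complex.ext_iff] at h3
    have r0 : y.re ≠ 0 := fun h => by
      simp [h] at h3 e
      rcases abs_cases y.im with b | b
      exacts [h3.1 (by linarith), h3.2 (by linarith)]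
    have i0 : y.im ≠ 0 := fun h => by
      simp [h] at h3 e
      rcases abs_cases y.re with b | b
      exacts [h3.1 (by linarith), h3.2 (by linarith)]
    obtain ⟨α, a1, a2⟩ : ∃ α : ℝ, α ≠ 0 ∧ ∀ᶠ z : ℂ in 𝓝 y, |z.im| = α * z.im := by
      rcases lt_or_gt_of_ne i0 with h | h
      · exact ⟨-1, by simp, ((Complex.continuous_im.tendsto y).eventually (gt_mem_nhds h)).mono
          fun z hz => by simp [abs_of_neg hz]⟩
      · exact ⟨1, by simp, ((Complex.continuous_im.tendsto y).eventually (lt_mem_nhds h)).mono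
          fun z hz => by simp [abs_of_pos hz]⟩
    obtain ⟨β, b2⟩ : ∃ β : ℝ, ∀ᶠ z : ℂ in 𝓝 y, |z.re| = β * z.re := by
      rcases lt_or_gt_of_ne r0 with h | h
      · exact ⟨-1, ((Complex.continuous_re.tendsto y).eventually (gt_mem_nhds h)).mono
          fun z hz => by simp [abs_of_neg hz]⟩
      · exact ⟨1, ((Complex.continuous_re.tendsto y).eventually (lt_mem_nhds h)).mono
          fun z hz => by simp [abs_of_pos hz]⟩
    refine (flat_half (f := fun z => β * z.re + α * z.im + -1) (aff0 β α (-1)) (by simpa using a1)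
      (by rw [← a2.self_of_nhds, ← b2.self_of_nhds]; linarith)).congr ?_
    filter_upwards [a2, b2] with z c1 c2
    simp only [W0, mem_ofPred_eq, c1, c2]
    constructor <;> intro h <;> linarith

end Pool.Agent.MP_d32a63_an.H95
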