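import Pool.Agent.MP_d32a63_an.H95.Lens

/-! Gluing of fields, connectedness, flat boundary points and transport along an edge. -/

namespace Pool.Agent.MP_d32a63_an.H95

open Set Filter Topology

theorem glue {F H T : ℂ → ℂ} {A B : Set ℂ} {κ : ℝ} (hκ : 0 < κ) (hA : IsClosed A)
    (hB : IsClosed B) (hF : Continuous F) (hH : ContinuousOn H A) (hT : ContinuousOn T B)
    (hAB : ∀ z ∈ A, z ∈ B → H z = T z) (h1 : ∀ z ∈ A, ‖H z - F z‖ ≤ κ)
    (h2 : ∀ z ∈ B, ‖T z - F z‖ ≤ κ) :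
    ∃ H' : ℂ → ℂ, Continuous H' ∧ (∀ z ∈ A, H' z = H z) ∧ (∀ z ∈ B, H' z = T z) ∧
      ∀ z, ‖H' z - F z‖ ≤ κ := by
  classical
  let k : ℂ → ℂ := fun z => (if z ∈ A then H z else T z) - F z
  have kA : ∀ z ∈ A, k z = H z - F z := fun z hz => by simp [k, hz]
  have kB : ∀ z ∈ B, k z = T z - F z := fun z hz => by
    by_cases h : z ∈ A
    · rw [kA z h, hAB z h hz]
    · simp [k, h]
  have hk : ContinuousOn k (A ∪ B) :=
    ((hH.sub hF.continuousOn).congr kA).union_of_isClosed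
      ((hT.sub hF.continuousOn).congr kB) hA hB
  have := Metric.instTietzeExtensionClosedBall.{0, 0} ℝ (0 : ℂ) hκ
  obtain ⟨g, hg, hr⟩ := ContinuousMap.exists_forall_mem_restrict_eq (hA.union hB)
    (⟨_, hk.domRestrict⟩ : C((A ∪ B : Set ℂ), ℂ)) (t := Metric.closedBall (0 : ℂ) κ) (by
      rintro ⟨z, hz | hz⟩
      · simpa [kA z hz] using h1 z hz
      · simpa [kB z hz] using h2 z hz)
  have e : ∀ z ∈ A ∪ B, g z = k z := fun z hz => by
    simpa using congrArg (fun f : C((A ∪ B : Set ℂ), ℂ) => f ⟨z, hz⟩) hr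
  refine ⟨fun z => g z + F z, by fun_prop, fun z hz => ?_, fun z hz => ?_, fun z => ?_⟩
  · simp [e z (Or.inl hz), kA z hz]
  · simp [e z (Or.inr hz), kB z hz]
  · simpa using hg z

theorem conn_diff {U N L : Set ℂ} (hU : IsOpen U) (hc : IsPreconnected U) (hN : IsOpen N)
    (hNU : N ⊆ U) (hL : IsClosed L) (hLN : L ∩ U ⊆ N) (hNL : IsPreconnected (N \ L)) :
    IsPreconnected (U \ L) := by
  have ho : IsOpen (U \ L) := hU.sdiff hL
  have key : ∀ u v : Set ℂ, IsOpen u → IsOpen v → U \ L ⊆ u ∪ v → ((U \ L) ∩ u).Nonempty →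
      ((U \ L) ∩ v).Nonempty → Disjoint ((U \ L) ∩ u) ((U \ L) ∩ v) →
      N \ L ⊆ (U \ L) ∩ u → False := by
    intro u v hu hv hs h1 h2 hd hsub
    have hd' : Disjoint (((U \ L) ∩ u) ∪ N) ((U \ L) ∩ v) := by
      refine disjoint_union_left.2 ⟨hd, disjoint_left.2 fun x hx hx' => ?_⟩
      exact disjoint_left.1 hd (hsub ⟨hx, hx'.1.2⟩) hx'
    rcases IsPreconnected.subset_or_subset ((ho.inter hu).union hN) (ho.inter hv) hd'
      (fun x hx => by
        by_cases hxL : x ∈ L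
        · exact Or.inl (Or.inr (hLN ⟨hxL, hx⟩))
        · rcases hs ⟨hx, hxL⟩ with h | h
          · exact Or.inl (Or.inl ⟨⟨hx, hxL⟩, h⟩)
          · exact Or.inr ⟨⟨hx, hxL⟩, h⟩) hc with h | h
    · obtain ⟨x, hx⟩ := h2
      exact disjoint_left.1 hd' (h hx.1.1) hx
    · obtain ⟨x, hx⟩ := h1
      exact disjoint_left.1 hd hx (h hx.1.1)
  intro u v hu hv hs h1 h2
  by_contra hne
  have hd : Disjoint ((U \ L) ∩ u) ((U \ L) ∩ v) :=
    disjoint_left.2 fun x hx hx' => hne ⟨x, hx.1, hx.2, hx'.2⟩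
  rcases IsPreconnected.subset_or_subset (ho.inter hu) (ho.inter hv) hd
    (fun x hx => by
      have hx' : x ∈ U \ L := ⟨hNU hx.1, hx.2⟩
      rcases hs hx' with h | h
      · exact Or.inl ⟨hx', h⟩
      · exact Or.inr ⟨hx', h⟩) hNL with h | h
  · exact key u v hu hv hs h1 h2 hd h
  · exact key v u hv hu (by rwa [union_comm]) h2 h1 hd.symm h

theorem Aff.convex {f : ℂ → ℝ} (h : Aff f) : Convex ℝ {z | 0 < f z} := by
  obtain ⟨a, ha⟩ := h
  have e : ∀ u, f u = f 0 + (a * u).re := fun u => by simpa using ha 0 u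
  intro x hx y hy s t hs ht hst
  simp only [mem_ofPred_eq] at *
  rw [e] at hx hy ⊢
  rw [Complex.real_smul, Complex.real_smul, mul_add, mul_left_comm, mul_left_comm a,
    Complex.add_re, Complex.re_ofReal_mul, Complex.re_ofReal_mul]
  have : f 0 = s * f 0 + t * f 0 := by rw [← add_mul, hst, one_mul]
  rcases hs.eq_or_lt with rfl | hs'
  · have : t = 1 := by linarith
    subst this; linarith
  · nlinarith [mul_pos hs' hx, mul_nonneg ht hy.le]

theorem step {N : Set ℂ} (hN : IsOpen N) {x : ℂ} (hx : x ∈ N) (u : ℂ) :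
    ∃ s : ℝ, 0 < s ∧ x + s * u ∈ N := by
  have hc : Continuous fun s : ℝ => x + s * u := by fun_prop
  have h1 : ∀ᶠ s : ℝ in 𝓝 0, x + s * u ∈ N :=
    (hc.tendsto 0).eventually (hN.mem_nhds (by simpa using hx))
  exact ((h1.filter_mono (nhdsWithin_le_nhds (s := Ioi 0))).and self_mem_nhdsWithin).exists.imp
    fun s hs => ⟨hs.2, hs.1⟩

theorem conn_lens {p v : ℂ} (h : p ≠ v) {t : ℝ} (ht : 0 < t) {N : Set ℂ} (hN : IsOpen N)
    (hc : Convex ℝ N) (hsub : ∀ z ∈ clens p v t, z ≠ p → z ∈ N) :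
    IsPreconnected (N \ clens p v t) := by
  have A := fun α β γ => (hc.inter (aff_co p v α β γ).convex).isPreconnected
  have hv : v - p ≠ 0 := sub_ne_zero.2 h.symm
  have pt : ∀ w u : ℂ, |w.im| ≤ t * w.re → |w.im| ≤ t * (1 - w.re) → w ≠ 0 →
      ∃ z ∈ N, ∃ s : ℝ, 0 < s ∧ co p v z = w + s * u := by
    intro w u h1 h2 h3
    obtain ⟨s, hs, h4⟩ := step hN (hsub (p + w * (v - p)) (by rw [mem_clens, co_mk h]; exact ⟨h1, h2⟩)
      (by simp [h3, hv])) (u * (v - p))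
    refine ⟨_, h4, s, hs, ?_⟩
    rw [show p + w * (v - p) + s * (u * (v - p)) = p + (w + s * u) * (v - p) by ring, co_mk h]
  obtain ⟨z1, n1, s1, p1, e1⟩ := pt ⟨1 / 2, t / 2⟩ Complex.I
    (by simp only; rw [abs_of_pos (by linarith)]; linarith)
    (by simp only; rw [abs_of_pos (by linarith)]; linarith) (by simp [Complex.ext_iff])
  obtain ⟨z2, n2, s2, p2, e2⟩ := pt 1 1 (by simp [ht.le]) (by simp) one_ne_zero
  obtain ⟨z3, n3, s3, p3, e3⟩ := pt ⟨1 / 2, -(t / 2)⟩ (-Complex.I)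
    (by simp only; rw [abs_neg, abs_of_pos (by linarith)]; linarith)
    (by simp only; rw [abs_neg, abs_of_pos (by linarith)]; linarith) (by simp [Complex.ext_iff])
  have c1 := IsPreconnected.union z1 (by exact ⟨n1, by simp [e1]; linarith⟩)
    (by exact ⟨n1, by simp [e1]; linarith⟩) (A (-t) 1 0) (A t 1 (-t))
  have c2 := IsPreconnected.union z2 (by exact Or.inr ⟨n2, by simp [e2]; nlinarith⟩)
    (by exact ⟨n2, by simp [e2]; nlinarith⟩) c1 (A t (-1) (-t))
  have c3 := IsPreconnected.union z3 (by exact Or.inr ⟨n3, by simp [e3]; linarith⟩)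
    (by exact ⟨n3, by simp [e3]; linarith⟩) c2 (A (-t) (-1) 0)
  convert c3 using 1
  ext z
  simp only [Set.mem_sdiff, mem_clens, abs_le, mem_union, mem_inter_iff, mem_ofPred_eq]
  constructor
  · rintro ⟨hz, h1⟩
    by_contra hcon
    simp only [hz, true_and, not_or, not_lt] at hcon
    obtain ⟨⟨⟨a, b⟩, c⟩, d⟩ := hcon
    exact h1 ⟨⟨by linarith, by linarith⟩, by linarith, by linarith⟩
  · rintro (((⟨hz, a⟩ | ⟨hz, a⟩) | ⟨hz, a⟩) | ⟨hz, a⟩) <;>
      exact ⟨hz, fun ⟨⟨b, c⟩, d, e⟩ => by linarith⟩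

theorem Flat.congr {W W' : Set ℂ} {y : ℂ} (h : Flat W y) (he : ∀ᶠ z in 𝓝 y, z ∈ W' ↔ z ∈ W) :
    Flat W' y := by
  obtain ⟨r, hr, c, s, hs, h1⟩ := h
  obtain ⟨r', hr', h2⟩ := Metric.eventually_nhds_iff_ball.1 he
  refine ⟨min r r', lt_min hr hr', c, s, hs, fun z hz => ?_⟩
  rw [h2 z (Metric.ball_subset_ball (min_le_right _ _) hz),
    h1 z (Metric.ball_subset_ball (min_le_left _ _) hz)]

theorem flat_half {f : ℂ → ℝ} {a y : ℂ} (ha : ∀ z u, f (z + u) = f z + (a * u).re)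
    (h0 : a.im ≠ 0) (hy : f y = 0) : Flat {z | 0 < f z} y := by
  have e : ∀ z, f z = -a.im * ((z - y).im - a.re / a.im * (z - y).re) := fun z => by
    have := ha y (z - y)
    rw [add_sub_cancel, hy, zero_add, Complex.mul_re] at this
    rw [this]; field_simp; ring
  rcases lt_or_gt_of_ne h0 with h | h
  · refine ⟨1, one_pos, a.re / a.im, 1, Or.inl rfl, fun z _ => ?_⟩
    rw [mem_ofPred_eq, e, one_mul, mul_pos_iff_of_pos_left (by linarith)]
  · refine ⟨1, one_pos, a.re / a.im, -1, Or.inr rfl, fun z _ => ?_⟩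
    rw [mem_ofPred_eq, e, neg_mul, neg_mul, ← mul_neg, ← mul_neg, one_mul,
      mul_pos_iff_of_pos_left h]

theorem flat_poly {ι : Type*} [Finite ι] {f : ι → ℂ → ℝ} {a : ι → ℂ} {y : ℂ}
    (ha : ∀ i z u, f i (z + u) = f i z + (a i * u).re) (h0 : ∀ i, (a i).im ≠ 0)
    (h1 : ∀ i, 0 ≤ f i y) (h2 : ¬ ∀ i, 0 < f i y) (h3 : ∀ i j, f i y = 0 → f j y = 0 → i = j) :
    Flat {z | ∀ i, 0 < f i z} y := by
  push Not at h2
  obtain ⟨i, hi⟩ := h2
  have hi' : f i y = 0 := le_antisymm hi (h1 i)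
  refine (flat_half (ha i) (h0 i) hi').congr ?_
  have : ∀ᶠ z in 𝓝 y, ∀ j, j ≠ i → 0 < f j z := by
    refine eventually_all.2 fun j => ?_
    by_cases hj : j = i
    · simp [hj]
    · have hp : 0 < f j y := lt_of_le_of_ne (h1 j) fun h => hj (h3 j i h.symm hi')
      have hc : Continuous (f j) := Aff.cont ⟨a j, ha j⟩
      exact ((hc.tendsto y).eventually (lt_mem_nhds hp)).mono fun z hz _ => hz
  filter_upwards [this] with z hz
  refine ⟨fun h => h i, fun h j => ?_⟩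
  by_cases hj : j = i
  · rwa [hj]
  · exact hz j hj

theorem flat_lens {p v : ℂ} (h : p ≠ v) {t : ℝ} (ht : 0 < t)
    (hv : t * |((v - p)⁻¹).im| ≠ |((v - p)⁻¹).re|) :
    ∃ X : Set ℂ, X.Finite ∧ p ∈ X ∧
      ∀ y ∈ clens p v t, y ∉ lens p v t → y ∉ X → Flat (lens p v t) y := by
  refine ⟨{p, v, p + ⟨1 / 2, t / 2⟩ * (v - p), p + ⟨1 / 2, -(t / 2)⟩ * (v - p)}, toFinite _,
    by simp, fun y h1 h2 h3 => ?_⟩
  let f : Fin 4 → ℂ → ℝ := fun i z => ![t, t, -t, -t] i * (co p v z).re +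
    ![-1, 1, -1, 1] i * (co p v z).im + ![0, 0, t, t] i
  have e : lens p v t = {z | ∀ i, 0 < f i z} := by
    ext z
    simp only [mem_lens, abs_lt, mem_ofPred_eq, Fin.forall_fin_succ, f]
    simp
    constructor
    · rintro ⟨⟨a, b⟩, c, d⟩; refine ⟨?_, ?_, ?_, ?_⟩ <;> linarith
    · rintro ⟨a, b, c, d⟩; refine ⟨⟨?_, ?_⟩, ?_, ?_⟩ <;> linarith
  rw [e] at h2 ⊢
  set c := (v - p)⁻¹ with hc
  have hne : ∀ α β : ℝ, |α| = t → |β| = 1 → ((α - β * Complex.I) * c).im ≠ 0 := by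
    intro α β ha hb h0
    apply hv
    have : α * c.im = β * c.re := by simp at h0; linarith
    rw [← ha, ← abs_mul, this, abs_mul, hb, one_mul]
  obtain ⟨⟨a1, a2⟩, a3, a4⟩ : (-(t * (co p v y).re) ≤ (co p v y).im ∧
      (co p v y).im ≤ t * (co p v y).re) ∧ -(t * (1 - (co p v y).re)) ≤ (co p v y).im ∧
      (co p v y).im ≤ t * (1 - (co p v y).re) := by simpa only [mem_clens, abs_le] using h1
  have hy : ∀ w : ℂ, (co p v y).re = w.re → (co p v y).im = w.im → y = p + w * (v - p) :=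
    fun w b1 b2 => by rw [← Complex.ext b1 b2]; exact co_inv h y
  simp only [mem_insert_iff, mem_singleton_iff, not_or] at h3
  obtain ⟨n1, n2, n3, n4⟩ := h3
  have m1 : ¬ ((co p v y).re = 0 ∧ (co p v y).im = 0) := fun b => n1 (by simpa using hy 0 b.1 b.2)
  have m2 : ¬ ((co p v y).re = 1 ∧ (co p v y).im = 0) := fun b => n2 (by simpa using hy 1 b.1 b.2)
  have m3 : ¬ ((co p v y).re = 1 / 2 ∧ (co p v y).im = t / 2) := fun b => n3 (hy _ b.1 b.2)
  have m4 : ¬ ((co p v y).re = 1 / 2 ∧ (co p v y).im = -(t / 2)) := fun b => n4 (hy _ b.1 b.2)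
  refine flat_poly (a := fun i => ((![t, t, -t, -t] i : ℝ) -
    (![-1, 1, -1, 1] i : ℝ) * Complex.I) * c) (fun i z u => ?_) (fun i => hne _ _ ?_ ?_)
    (fun i => ?_) h2 fun i j hi hj => ?_
  · simp only [f]
    rw [co_add, mul_assoc, mul_comm c u]
    generalize u * c = w
    simp; ring
  · fin_cases i <;> simp [ht.le]
  · fin_cases i <;> simp
  · fin_cases i <;> simp [f] <;> linarith
  · have k : ∀ {a b : ℝ}, t * a = t * b → a = b := fun h => mul_left_cancel₀ ht.ne' h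
    fin_cases i <;> fin_cases j <;> simp [f] at hi hj ⊢ <;>
      first
      | exact m1 ⟨k (by linarith), by linarith⟩
      | exact m2 ⟨k (by linarith), by linarith⟩
      | exact m3 ⟨k (by linarith), by linarith⟩
      | exact m4 ⟨k (by linarith), by linarith⟩

theorem mvt {f f' : ℂ → ℂ} {p v : ℂ} {M : ℝ} (hM : 0 ≤ M) (hc : ContinuousOn f (segment ℝ p v))
    (hd : ∀ y ∈ openSegment ℝ p v, HasDerivAt f (f' y) y)
    (hb : ∀ y ∈ openSegment ℝ p v, ‖f' y‖ ≤ M) : ‖f p - f v‖ ≤ ‖p - v‖ * M := by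
  have h1 := Convex.lipschitzOnWith_of_nnnorm_hasDerivWithin_le (C := ⟨M, hM⟩)
    (convex_openSegment p v) (fun y hy => (hd y hy).hasDerivWithinAt) hb
  have h2 := LipschitzOnWith.closure (by rwa [closure_openSegment]) h1
  rw [closure_openSegment] at h2
  have := h2.norm_sub_le (left_mem_segment ℝ p v) (right_mem_segment ℝ p v)
  rwa [mul_comm]

theorem tay_deriv {n : ℕ} {G : ℕ → ℂ → ℂ} {y : ℂ}
    (h : ∀ j < n, HasDerivAt (G j) (G (j + 1) y) y) (z : ℂ) (m : ℕ) (hm : m + 1 ≤ n) :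
    HasDerivAt (fun x => tay (m + 1) G x z) (G (m + 1) y * (z - y) ^ m / m.factorial) y := by
  induction m with
  | zero => simpa [tay] using h 0 hm
  | succ m ih =>
    have h1 := ((h (m + 1) hm).mul (((hasDerivAt_id y).const_sub z).pow (m + 1))).div_const
      ((m + 1).factorial : ℂ)
    have h2 := (ih (by omega)).add h1
    refine (h2.congr_deriv ?_).congr_of_eventuallyEq (.of_forall fun x => ?_)
    swap
    · simp [tay, Finset.sum_range_succ]
    · have : (m.factorial : ℂ) ≠ 0 := by exact_mod_cast m.factorial_ne_zero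
      have : ((m : ℂ) + 1) ≠ 0 := by exact_mod_cast m.succ_ne_zero
      simp [Nat.factorial_succ]; field_simp; ring

theorem transport {n : ℕ} (hn : 1 ≤ n) {W : Set ℂ} {G : ℕ → ℂ → ℂ} (hG : Sec n W G) {p v : ℂ}
    (hs : openSegment ℝ p v ⊆ W) (hp : ‖p‖ ≤ 3) (hv : ‖v‖ ≤ 3) :
    ‖G 0 p - G 0 v‖ ≤ ‖p - v‖ ∧ ∀ (z : ℂ) (d : ℝ), ‖z - p‖ ≤ d → ‖z - v‖ ≤ d →
      ‖tay n G p z - tay n G v z‖ ≤ ‖p - v‖ * d ^ (n - 1) := by
  have h1 : segment ℝ p v ⊆ closure W := by rw [← closure_openSegment]; exact closure_mono hs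
  have h2 : ∀ (z : ℂ) (d : ℝ), ‖z - p‖ ≤ d → ‖z - v‖ ≤ d → ∀ y ∈ openSegment ℝ p v,
      ‖z - y‖ ≤ d := fun z d a b y hy => by
    have := (convex_closedBall z d).segment_subset (x := p) (y := v)
      (by rwa [Metric.mem_closedBall, dist_comm, dist_eq_norm])
      (by rwa [Metric.mem_closedBall, dist_comm, dist_eq_norm]) (openSegment_subset_segment _ _ _ hy)
    rwa [Metric.mem_closedBall, dist_comm, dist_eq_norm] at this
  have h3 : ∀ j ≤ n, ∀ y ∈ openSegment ℝ p v, ‖G j y‖ ≤ 1 := fun j hj y hy =>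
    hG.bdd j hj y (subset_closure (hs hy))
      (by simpa using h2 0 3 (by simpa using hp) (by simpa using hv) y hy)
  refine ⟨?_, fun z d a b => ?_⟩
  · simpa using mvt zero_le_one ((hG.cont 0 (by omega)).mono h1)
      (fun y hy => hG.der 0 hn y (hs hy)) (h3 1 hn)
  · obtain ⟨m, rfl⟩ : ∃ m, n = m + 1 := ⟨n - 1, by omega⟩
    have hd : 0 ≤ d := (norm_nonneg _).trans a
    refine mvt (f := fun x => tay (m + 1) G x z) (by positivity) ?_
      (fun y hy => tay_deriv (fun j hj => hG.der j hj y (hs hy)) z m le_rfl) fun y hy => ?_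
    · unfold tay
      refine continuousOn_finsetSum _ fun j hj => ?_
      have := (hG.cont j (Finset.mem_range.1 hj).le).mono h1
      fun_prop (disch := simp)
    · rw [norm_div, norm_mul, norm_pow, Complex.norm_natCast, Nat.add_sub_cancel]
      have : (1 : ℝ) ≤ m.factorial := by exact_mod_cast m.factorial_pos
      calc _ ≤ 1 * d ^ m / 1 := by gcongr; exacts [h3 _ le_rfl y hy, h2 z d a b y hy]
        _ = _ := by ring

end Pool.Agent.MP_d32a63_an.H95
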